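import Pool.Agent.T9h69.LG.Kb

/-!
The kernel of the propagator at the time `γ`, `|γ| ≥ 1`: the `L¹` norm is at most `C |γ|^(1/2)`
(for helper44, MP_ee74d2_an, piece FX), second part.

Author: helper69.
-/

set_option autoImplicit false

namespace Pool.Agent.T9h69.LG

open MeasureTheory Real Pool.Agent.T9h44.LG Pool.Agent.T9h31.LG
open scoped ENNReal ComplexConjugate ContDiff

theorem norm_XX (γ : ℝ) (f g : ℝ → ℂ) (ζ : ℝ × ℝ) : ‖XX γ f g ζ‖ = ‖f ζ.1‖ * ‖g ζ.2‖ := by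
  unfold XX
  rw [norm_mul, norm_ee, one_mul, norm_mul]

theorem L2_XX {f g : ℝ → ℂ} (hf : SW f) (hg : SF g) : ∃ C : ℝ, 0 ≤ C ∧ ∀ γ : ℝ,
    ∫⁻ z : ℝ × ℝ, ENNReal.ofReal (‖T9h44.LG.Ext (XX γ f g) z‖ ^ 2) ≤ ENNReal.ofReal C := by
  have hn := (test_XX 0 hf hg).nice
  have h1 : ∫⁻ ζ : ℝ × ℝ, ‖XX 0 f g ζ‖ₑ ^ 2 < ⊤ := (memLp_two_iff hn.1.aestronglyMeasurable).1
    (Nice.memLp hn)
  refine ⟨(∫⁻ ζ : ℝ × ℝ, ‖XX 0 f g ζ‖ₑ ^ 2).toReal, ENNReal.toReal_nonneg, fun γ => ?_⟩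
  rw [ENNReal.ofReal_toReal h1.ne]
  have h2 := planch_Ext (test_XX γ hf hg).nice
  simp only [← enorm_sq_ofReal]
  rw [h2]
  refine le_of_eq (lintegral_congr fun ζ => ?_)
  rw [enorm_sq_ofReal, enorm_sq_ofReal, norm_XX, norm_XX]

/-- pointwise bound for the factor `x/γ` -/
theorem x_pt {γ : ℝ} (hγ : 1 ≤ |γ|) {f g : ℝ → ℂ} (hf : SW f) (hg : SF g) (z : ℝ × ℝ) :
    (1 + (z.2 / γ) ^ 2) * ‖T9h44.LG.Ext (XX γ f g) z‖ ^ 2 ≤
      ‖T9h44.LG.Ext (XX γ f g) z‖ ^ 2 + 2 * ‖T9h44.LG.Ext (XX γ f (deriv g)) z‖ ^ 2 +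
        8 * ‖T9h44.LG.Ext (XX γ (dv f) (xg g)) z‖ ^ 2 := by
  have h := congrArg norm (x_Ext γ hf hg z)
  generalize T9h44.LG.Ext (XX γ f g) z = E at h ⊢
  generalize T9h44.LG.Ext (XX γ f (deriv g)) z = E3 at h ⊢
  generalize T9h44.LG.Ext (XX γ (dv f) (xg g)) z = E4 at h ⊢
  have hγ0 : 0 < |γ| := by linarith
  have hπ := Real.pi_gt_three
  have h1 : 2 * π * |z.2| * ‖E‖ ≤ ‖E3‖ + 4 * π * |γ| * ‖E4‖ := by
    have h2 := norm_add_le E3 (4 * π * Complex.I * γ * E4)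
    rw [← h] at h2
    rw [norm_mul, norm_neg, norm_mul, norm_mul, norm_mul, norm_mul, norm_mul, norm_mul, norm_mul,
      Complex.norm_I, Complex.norm_real, Complex.norm_real, Complex.norm_real] at h2
    simp only [Complex.norm_ofNat, mul_one, Real.norm_eq_abs, abs_of_pos Real.pi_pos] at h2
    exact h2
  have h3 : |z.2 / γ| * ‖E‖ ≤ ‖E3‖ + 2 * ‖E4‖ := by
    rw [abs_div, div_mul_eq_mul_div, div_le_iff₀ hγ0]
    have h4 : |z.2| * ‖E‖ ≤ (‖E3‖ + 4 * π * |γ| * ‖E4‖) / (2 * π) := by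
      rw [le_div_iff₀ (by positivity)]
      linarith
    have h5 : (‖E3‖ + 4 * π * |γ| * ‖E4‖) / (2 * π) = ‖E3‖ / (2 * π) + 2 * |γ| * ‖E4‖ := by
      field_simp
      ring
    have h6 : ‖E3‖ / (2 * π) ≤ ‖E3‖ := div_le_self (norm_nonneg _) (by linarith)
    have h7 : ‖E3‖ ≤ ‖E3‖ * |γ| := le_mul_of_one_le_right (norm_nonneg _) hγ
    nlinarith
  have h8 : (z.2 / γ) ^ 2 * ‖E‖ ^ 2 ≤ 2 * ‖E3‖ ^ 2 + 8 * ‖E4‖ ^ 2 := by
    have h9 : (|z.2 / γ| * ‖E‖) ^ 2 ≤ (‖E3‖ + 2 * ‖E4‖) ^ 2 :=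
      pow_le_pow_left₀ (by positivity) h3 2
    rw [mul_pow, sq_abs] at h9
    nlinarith [sq_nonneg (‖E3‖ - 2 * ‖E4‖)]
  nlinarith

/-- two terms -/
theorem two_t {u v : ℝ × ℝ → ℝ} (hu : Measurable u) (hu0 : ∀ z, 0 ≤ u z) (hv0 : ∀ z, 0 ≤ v z)
    {A B : ℝ} (hA : 0 ≤ A) (hB : 0 ≤ B) (h1 : ∫⁻ z, ENNReal.ofReal (u z) ≤ ENNReal.ofReal A)
    (h2 : ∫⁻ z, ENNReal.ofReal (v z) ≤ ENNReal.ofReal B) {a b : ℝ} (ha : 0 ≤ a) (hb : 0 ≤ b) :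
    ∫⁻ z, ENNReal.ofReal (a * u z + b * v z) ≤ ENNReal.ofReal (a * A + b * B) := by
  have e1 : ∀ z, ENNReal.ofReal (a * u z + b * v z) =
      ENNReal.ofReal a * ENNReal.ofReal (u z) + ENNReal.ofReal b * ENNReal.ofReal (v z) := by
    intro z
    have := hu0 z
    have := hv0 z
    rw [ENNReal.ofReal_add (by positivity) (by positivity), ENNReal.ofReal_mul ha,
      ENNReal.ofReal_mul hb]
  rw [lintegral_congr e1, lintegral_add_left (hu.ennreal_ofReal.const_mul _),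
    lintegral_const_mul' _ _ ENNReal.ofReal_ne_top, lintegral_const_mul' _ _ ENNReal.ofReal_ne_top,
    ENNReal.ofReal_add (by positivity) (by positivity), ENNReal.ofReal_mul ha,
    ENNReal.ofReal_mul hb]
  exact add_le_add (mul_le_mul' le_rfl h1) (mul_le_mul' le_rfl h2)

theorem meas_n2 (γ : ℝ) {f g : ℝ → ℂ} (hf : SW f) (hg : SF g) :
    Measurable fun z : ℝ × ℝ => ‖T9h44.LG.Ext (XX γ f g) z‖ ^ 2 :=
  (continuous_Ext (test_XX γ hf hg).nice).measurable.norm.pow_const 2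

theorem Q_XX {f g : ℝ → ℂ} (hf : SW f) (hg : SF g) : ∃ C : ℝ, 0 ≤ C ∧ ∀ γ : ℝ, 1 ≤ |γ| →
    ∫⁻ z : ℝ × ℝ, ENNReal.ofReal ((1 + (z.2 / γ) ^ 2) * ‖T9h44.LG.Ext (XX γ f g) z‖ ^ 2) ≤
      ENNReal.ofReal C := by
  obtain ⟨C1, h10, h1⟩ := L2_XX hf hg
  obtain ⟨C2, h20, h2⟩ := L2_XX hf hg.deriv
  obtain ⟨C3, h30, h3⟩ := L2_XX hf.dv hg.xg
  refine ⟨1 * C1 + 1 * (2 * C2 + 8 * C3), by positivity, fun γ hγ => ?_⟩
  have h4 := two_t (meas_n2 γ hf hg.deriv) (fun z => by positivity) (fun z => by positivity)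
    h20 h30 (h2 γ) (h3 γ) (a := 2) (b := 8) (by norm_num) (by norm_num)
  have h5 := two_t (meas_n2 γ hf hg) (fun z => by positivity) (fun z => by positivity)
    h10 (by positivity) (h1 γ) h4 (a := 1) (b := 1) (by norm_num) (by norm_num)
  refine le_trans (lintegral_mono fun z => ENNReal.ofReal_le_ofReal ?_) h5
  have := x_pt hγ hf hg z
  linarith

/-- the weight -/
noncomputable def ws (γ : ℝ) (z : ℝ × ℝ) : ℝ :=
  (1 + (z.1 - z.2 ^ 2 / (4 * γ)) ^ 2) * (1 + (z.2 / γ) ^ 2)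

theorem ws_pos (γ : ℝ) (z : ℝ × ℝ) : 0 < ws γ z := by unfold ws; positivity

theorem meas_ws (γ : ℝ) : Measurable (ws γ) := by unfold ws; fun_prop

theorem key_pt {γ : ℝ} (hγ : 1 ≤ |γ|) {f g : ℝ → ℂ} (hf : SW f) (hg : SF g) (z : ℝ × ℝ) :
    (z.1 - z.2 ^ 2 / (4 * γ)) ^ 2 * ‖T9h44.LG.Ext (XX γ f g) z‖ ^ 2 ≤
      4 * ‖T9h44.LG.Ext (XX γ (deriv f) g) z‖ ^ 2 +
      4 * ‖T9h44.LG.Ext (XX γ f (deriv (deriv g))) z‖ ^ 2 +
      4 * ‖T9h44.LG.Ext (XX γ (dv f) (xg (deriv g))) z‖ ^ 2 +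
      4 * ‖T9h44.LG.Ext (XX γ (dv f) (deriv (xg g))) z‖ ^ 2 := by
  have hγ0 : 0 < |γ| := by linarith
  have hγne : γ ≠ 0 := abs_pos.1 hγ0
  have h := congrArg norm (key_Ext hγne hf hg z)
  generalize T9h44.LG.Ext (XX γ f g) z = E at h ⊢
  generalize T9h44.LG.Ext (XX γ (deriv f) g) z = E1 at h ⊢
  generalize T9h44.LG.Ext (XX γ f (deriv (deriv g))) z = E5 at h ⊢
  generalize T9h44.LG.Ext (XX γ (dv f) (xg (deriv g))) z = E6 at h ⊢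
  generalize T9h44.LG.Ext (XX γ (dv f) (deriv (xg g))) z = E7 at h ⊢
  have hπ := Real.pi_gt_three
  rw [norm_mul, Complex.norm_real, Real.norm_eq_abs] at h
  have a1 : ‖Complex.I / (2 * π) * E1‖ ≤ ‖E1‖ := by
    rw [norm_mul, norm_div, Complex.norm_I, norm_mul, Complex.norm_ofNat, Complex.norm_real,
      Real.norm_of_nonneg Real.pi_pos.le]
    refine mul_le_of_le_one_left (norm_nonneg _) ?_
    rw [div_le_one (by positivity)]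
    linarith
  have a2 : ‖(1 / (16 * π ^ 2 * γ) : ℂ) * E5‖ ≤ ‖E5‖ := by
    rw [norm_mul, norm_div, norm_one, norm_mul, norm_mul, norm_pow, Complex.norm_ofNat,
      Complex.norm_real, Complex.norm_real,
      Real.norm_of_nonneg Real.pi_pos.le, Real.norm_eq_abs]
    refine mul_le_of_le_one_left (norm_nonneg _) ?_
    rw [div_le_one (by positivity)]
    have : (1 : ℝ) ≤ 16 * π ^ 2 := by nlinarith
    nlinarith
  have a3 : ‖Complex.I / (4 * π) * (E6 + E7)‖ ≤ ‖E6‖ + ‖E7‖ := by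
    rw [norm_mul, norm_div, Complex.norm_I, norm_mul, Complex.norm_ofNat, Complex.norm_real,
      Real.norm_of_nonneg Real.pi_pos.le]
    refine (mul_le_of_le_one_left (norm_nonneg _) ?_).trans (norm_add_le _ _)
    rw [div_le_one (by positivity)]
    linarith
  have h2 : |z.1 - z.2 ^ 2 / (4 * γ)| * ‖E‖ ≤ ‖E1‖ + ‖E5‖ + (‖E6‖ + ‖E7‖) := by
    rw [h]
    exact (norm_add₃_le).trans (by gcongr)
  have h3 : (|z.1 - z.2 ^ 2 / (4 * γ)| * ‖E‖) ^ 2 ≤ (‖E1‖ + ‖E5‖ + (‖E6‖ + ‖E7‖)) ^ 2 :=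
    pow_le_pow_left₀ (by positivity) h2 2
  rw [mul_pow, sq_abs] at h3
  nlinarith [sq_nonneg (‖E1‖ - ‖E5‖), sq_nonneg (‖E1‖ - ‖E6‖), sq_nonneg (‖E1‖ - ‖E7‖),
    sq_nonneg (‖E5‖ - ‖E6‖), sq_nonneg (‖E5‖ - ‖E7‖), sq_nonneg (‖E6‖ - ‖E7‖)]

theorem meas_q2 (γ : ℝ) {f g : ℝ → ℂ} (hf : SW f) (hg : SF g) :
    Measurable fun z : ℝ × ℝ => (1 + (z.2 / γ) ^ 2) * ‖T9h44.LG.Ext (XX γ f g) z‖ ^ 2 :=
  Measurable.mul (by fun_prop) (meas_n2 γ hf hg)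

theorem W_XX {f g : ℝ → ℂ} (hf : SW f) (hg : SF g) : ∃ C : ℝ, 0 ≤ C ∧ ∀ γ : ℝ, 1 ≤ |γ| →
    ∫⁻ z : ℝ × ℝ, ENNReal.ofReal (ws γ z * ‖T9h44.LG.Ext (XX γ f g) z‖ ^ 2) ≤
      ENNReal.ofReal C := by
  obtain ⟨C0, h00, h0⟩ := Q_XX hf hg
  obtain ⟨C1, h10, h1⟩ := Q_XX hf.deriv hg
  obtain ⟨C2, h20, h2⟩ := Q_XX hf hg.deriv.deriv
  obtain ⟨C3, h30, h3⟩ := Q_XX hf.dv hg.deriv.xg
  obtain ⟨C4, h40, h4⟩ := Q_XX hf.dv hg.xg.deriv
  refine ⟨1 * C0 + 4 * (1 * C1 + 1 * (1 * C2 + 1 * (1 * C3 + 1 * C4))), by positivity,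
    fun γ hγ => ?_⟩
  have s1 := two_t (meas_q2 γ hf.dv hg.deriv.xg) (fun z => by positivity)
    (fun z => by positivity) h30 h40 (h3 γ hγ) (h4 γ hγ) (a := 1) (b := 1) (by norm_num)
    (by norm_num)
  have s2 := two_t (meas_q2 γ hf hg.deriv.deriv) (fun z => by positivity)
    (fun z => by positivity) h20 (by positivity) (h2 γ hγ) s1 (a := 1) (b := 1) (by norm_num)
    (by norm_num)
  have s3 := two_t (meas_q2 γ hf.deriv hg) (fun z => by positivity)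
    (fun z => by positivity) h10 (by positivity) (h1 γ hγ) s2 (a := 1) (b := 1) (by norm_num)
    (by norm_num)
  have s4 := two_t (meas_q2 γ hf hg) (fun z => by positivity)
    (fun z => by positivity) h00 (by positivity) (h0 γ hγ) s3 (a := 1) (b := 4) (by norm_num)
    (by norm_num)
  refine le_trans (lintegral_mono fun z => ENNReal.ofReal_le_ofReal ?_) s4
  have h5 := key_pt hγ hf hg z
  have h6 : 0 ≤ 1 + (z.2 / γ) ^ 2 := by positivity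
  have h7 := mul_le_mul_of_nonneg_left h5 h6
  unfold ws
  nlinarith

theorem lint_ws {γ : ℝ} (hγ : 1 ≤ |γ|) :
    ∫⁻ z : ℝ × ℝ, ENNReal.ofReal ((ws γ z)⁻¹) = ENNReal.ofReal (π ^ 2 * |γ|) := by
  have hγ0 : 0 < |γ| := by linarith
  have hγne : γ ≠ 0 := abs_pos.1 hγ0
  have h1 : ∫⁻ t : ℝ, ENNReal.ofReal ((1 + t ^ 2)⁻¹) = ENNReal.ofReal π := by
    rw [← ofReal_integral_eq_lintegral_ofReal integrable_inv_one_add_sq
      (Filter.Eventually.of_forall fun t => by positivity), integral_univ_inv_one_add_sq]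
  have h2 : ∫⁻ x : ℝ, ENNReal.ofReal ((1 + (x / γ) ^ 2)⁻¹) = ENNReal.ofReal (|γ| * π) := by
    have hi : Integrable fun x : ℝ => (1 + (x / γ) ^ 2)⁻¹ :=
      integrable_inv_one_add_sq.comp_div hγne
    rw [← ofReal_integral_eq_lintegral_ofReal hi
      (Filter.Eventually.of_forall fun t => by positivity)]
    congr 1
    have := Measure.integral_comp_div (fun x : ℝ => (1 + x ^ 2)⁻¹) γ
    rw [this, integral_univ_inv_one_add_sq, smul_eq_mul]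
  rw [Measure.volume_eq_prod, lintegral_prod_symm (fun z : ℝ × ℝ => ENNReal.ofReal ((ws γ z)⁻¹))
    ((meas_ws γ).inv.ennreal_ofReal.aemeasurable)]
  have h3 : ∀ x : ℝ, ∫⁻ t : ℝ, ENNReal.ofReal ((ws γ (t, x))⁻¹) =
      ENNReal.ofReal π * ENNReal.ofReal ((1 + (x / γ) ^ 2)⁻¹) := by
    intro x
    have e : ∀ t : ℝ, ENNReal.ofReal ((ws γ (t, x))⁻¹) =
        ENNReal.ofReal ((1 + (t - x ^ 2 / (4 * γ)) ^ 2)⁻¹) *
          ENNReal.ofReal ((1 + (x / γ) ^ 2)⁻¹) := by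
      intro t
      rw [← ENNReal.ofReal_mul (by positivity)]
      congr 1
      unfold ws
      rw [mul_inv]
    rw [lintegral_congr e, lintegral_mul_const' _ _ ENNReal.ofReal_ne_top,
      lintegral_sub_right_eq_self (fun t => ENNReal.ofReal ((1 + t ^ 2)⁻¹)), h1]
  rw [lintegral_congr h3, lintegral_const_mul' _ _ ENNReal.ofReal_ne_top, h2,
    ← ENNReal.ofReal_mul Real.pi_pos.le]
  congr 1
  ring

/-- **the `L¹` norm of the kernel** -/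
theorem L1_XX {f g : ℝ → ℂ} (hf : SW f) (hg : SF g) : ∃ C : ℝ, 0 < C ∧ ∀ γ : ℝ, 1 ≤ |γ| →
    ∫ z : ℝ × ℝ, ‖T9h44.LG.Ext (XX γ f g) z‖ ≤ Real.sqrt (C * |γ|) := by
  obtain ⟨C, hC0, hC⟩ := W_XX hf hg
  refine ⟨π ^ 2 * (C + 1), by positivity, fun γ hγ => ?_⟩
  have hm : Measurable fun z : ℝ × ℝ => ‖T9h44.LG.Ext (XX γ f g) z‖ₑ :=
    (continuous_Ext (test_XX γ hf hg).nice).measurable.enorm
  have hc := cs_lint (K := fun z => ENNReal.ofReal ((ws γ z)⁻¹))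
    (u := fun z => ENNReal.ofReal (ws γ z) * ‖T9h44.LG.Ext (XX γ f g) z‖ₑ)
    (meas_ws γ).inv.ennreal_ofReal ((meas_ws γ).ennreal_ofReal.mul hm)
  have e1 : ∀ z : ℝ × ℝ, ENNReal.ofReal ((ws γ z)⁻¹) *
      (ENNReal.ofReal (ws γ z) * ‖T9h44.LG.Ext (XX γ f g) z‖ₑ) =
      ‖T9h44.LG.Ext (XX γ f g) z‖ₑ := by
    intro z
    rw [← mul_assoc, ← ENNReal.ofReal_mul (inv_pos.2 (ws_pos γ z)).le,
      inv_mul_cancel₀ (ws_pos γ z).ne', ENNReal.ofReal_one, one_mul]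
  have e2 : ∀ z : ℝ × ℝ, ENNReal.ofReal ((ws γ z)⁻¹) *
      (ENNReal.ofReal (ws γ z) * ‖T9h44.LG.Ext (XX γ f g) z‖ₑ) ^ 2 =
      ENNReal.ofReal (ws γ z * ‖T9h44.LG.Ext (XX γ f g) z‖ ^ 2) := by
    intro z
    rw [mul_pow, pow_two (ENNReal.ofReal (ws γ z)), ← mul_assoc, ← mul_assoc,
      ← ENNReal.ofReal_mul (inv_pos.2 (ws_pos γ z)).le,
      inv_mul_cancel₀ (ws_pos γ z).ne', ENNReal.ofReal_one, one_mul, enorm_sq_ofReal,
      ← ENNReal.ofReal_mul (ws_pos γ z).le]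
  rw [lintegral_congr e1, lintegral_congr e2, lint_ws hγ] at hc
  have hi := Ext_integrable (test_XX γ hf hg)
  have h3 : ∫⁻ z : ℝ × ℝ, ‖T9h44.LG.Ext (XX γ f g) z‖ₑ =
      ENNReal.ofReal (∫ z : ℝ × ℝ, ‖T9h44.LG.Ext (XX γ f g) z‖) :=
    (ofReal_integral_norm_eq_lintegral_enorm hi).symm
  have h4 : 0 ≤ ∫ z : ℝ × ℝ, ‖T9h44.LG.Ext (XX γ f g) z‖ := integral_nonneg fun _ => norm_nonneg _
  rw [h3, ← ENNReal.ofReal_pow h4] at hc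
  have h5 := hc.trans (mul_le_mul' le_rfl (hC γ hγ))
  rw [← ENNReal.ofReal_mul (by positivity), ENNReal.ofReal_le_ofReal_iff (by positivity)] at h5
  refine Real.le_sqrt_of_sq_le (h5.trans ?_)
  have : 0 ≤ π ^ 2 * |γ| := by positivity
  nlinarith

end Pool.Agent.T9h69.LG
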