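import Pool.Agent.T9h44.LG.Spec
import Pool.Agent.T9h31.LG.Planch

/-!
Piece (FR) for helper44 (MP_ee74d2_an): change of the frame.

Author: helper69.
-/

set_option autoImplicit false

namespace Pool.Agent.T9h69.LG

open MeasureTheory Real Pool.Agent.T9h44.LG Pool.Agent.T9h31.LG
open scoped ENNReal ComplexConjugate

/-- the shear `(w, ξ) ↦ (w, w α + s ξ)` -/
noncomputable def shA (α s : ℝ) (hs : s ≠ 0) : (ℝ × ℝ) ≃ᵐ (ℝ × ℝ) where
  toFun ζ := (ζ.1, ζ.1 * α + s * ζ.2)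
  invFun ζ := (ζ.1, (ζ.2 - ζ.1 * α) / s)
  left_inv ζ := by
    ext
    · rfl
    · simp only; field_simp; ring
  right_inv ζ := by
    ext
    · rfl
    · simp only; field_simp; ring
  measurable_toFun := by
    change Measurable fun ζ : ℝ × ℝ => (ζ.1, ζ.1 * α + s * ζ.2)
    fun_prop
  measurable_invFun := by
    change Measurable fun ζ : ℝ × ℝ => (ζ.1, (ζ.2 - ζ.1 * α) / s)
    fun_prop

/-- the affine map `(t, x) ↦ (t + α x + a, s (x + b))` -/
noncomputable def shB (α s a b : ℝ) (hs : s ≠ 0) : (ℝ × ℝ) ≃ᵐ (ℝ × ℝ) where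
  toFun z := (z.1 + α * z.2 + a, s * (z.2 + b))
  invFun y := (y.1 - a - α * (y.2 / s - b), y.2 / s - b)
  left_inv z := by
    ext
    · simp only; field_simp; ring
    · simp only; field_simp; ring
  right_inv z := by
    ext
    · simp only; ring
    · simp only; field_simp; ring
  measurable_toFun := by
    change Measurable fun z : ℝ × ℝ => (z.1 + α * z.2 + a, s * (z.2 + b))
    fun_prop
  measurable_invFun := by
    change Measurable fun y : ℝ × ℝ => (y.1 - a - α * (y.2 / s - b), y.2 / s - b)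
    fun_prop

theorem map_shA (α s : ℝ) (hs : 0 < s) :
    Measure.map (shA α s hs.ne') (volume : Measure (ℝ × ℝ)) = ENNReal.ofReal (1 / s) • volume := by
  have hdet : LinearMap.det (Matrix.toLin (Module.Basis.finTwoProd ℝ) (Module.Basis.finTwoProd ℝ)
      !![1, 0; α, s]) = s := by
    rw [LinearMap.det_toLin, Matrix.det_fin_two_of]; ring
  have h := Measure.map_linearMap_addHaar_eq_smul_addHaar (volume : Measure (ℝ × ℝ))
    (f := Matrix.toLin (Module.Basis.finTwoProd ℝ) (Module.Basis.finTwoProd ℝ) !![1, 0; α, s])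
    (by rw [hdet]; exact hs.ne')
  rw [hdet, abs_of_pos (inv_pos.mpr hs)] at h
  rw [one_div, ← h]
  congr 1
  funext ζ
  rw [Matrix.toLin_finTwoProd_apply]
  change (ζ.1, ζ.1 * α + s * ζ.2) = _
  ext
  · simp
  · simp; ring

theorem map_shB (α s a b : ℝ) (hs : 0 < s) :
    Measure.map (shB α s a b hs.ne') (volume : Measure (ℝ × ℝ)) =
      ENNReal.ofReal (1 / s) • volume := by
  have hdet : LinearMap.det (Matrix.toLin (Module.Basis.finTwoProd ℝ) (Module.Basis.finTwoProd ℝ)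
      !![1, α; 0, s]) = s := by
    rw [LinearMap.det_toLin, Matrix.det_fin_two_of]; ring
  have h := Measure.map_linearMap_addHaar_eq_smul_addHaar (volume : Measure (ℝ × ℝ))
    (f := Matrix.toLin (Module.Basis.finTwoProd ℝ) (Module.Basis.finTwoProd ℝ) !![1, α; 0, s])
    (by rw [hdet]; exact hs.ne')
  rw [hdet, abs_of_pos (inv_pos.mpr hs)] at h
  have h2 : (shB α s a b hs.ne' : ℝ × ℝ → ℝ × ℝ) = (fun y => y + ((a, s * b) : ℝ × ℝ)) ∘
      (Matrix.toLin (Module.Basis.finTwoProd ℝ) (Module.Basis.finTwoProd ℝ) !![1, α; 0, s]) := by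
    funext z
    rw [Function.comp_apply, Matrix.toLin_finTwoProd_apply]
    change (z.1 + α * z.2 + a, s * (z.2 + b)) = _
    ext
    · simp
    · simp; ring
  rw [h2, ← Measure.map_map (by fun_prop) (LinearMap.continuous_of_finiteDimensional _).measurable,
    h, one_div, Measure.map_smul, (measurePreserving_add_right volume ((a, s * b) : ℝ × ℝ)).map_eq]

theorem lintegral_shB (α s a b : ℝ) (hs : 0 < s) (f : ℝ × ℝ → ℝ≥0∞) :
    ∫⁻ z : ℝ × ℝ, f (z.1 + α * z.2 + a, s * (z.2 + b)) =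
      ENNReal.ofReal (1 / s) * ∫⁻ y : ℝ × ℝ, f y := by
  have h := lintegral_map_equiv (μ := (volume : Measure (ℝ × ℝ))) f (shB α s a b hs.ne')
  rw [map_shB α s a b hs, lintegral_smul_measure, smul_eq_mul] at h
  exact h.symm

theorem integral_shA (α s : ℝ) (hs : 0 < s) (f : ℝ × ℝ → ℂ) :
    ∫ ζ : ℝ × ℝ, f ζ = s * ∫ ζ : ℝ × ℝ, f (ζ.1, ζ.1 * α + s * ζ.2) := by
  have h := (shA α s hs.ne').measurableEmbedding.integral_map
    (μ := (volume : Measure (ℝ × ℝ))) f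
  rw [map_shA α s hs, integral_smul_measure, ENNReal.toReal_ofReal (by positivity)] at h
  have h2 : ∫ ζ : ℝ × ℝ, f (ζ.1, ζ.1 * α + s * ζ.2) = ((1 / s : ℝ)) • ∫ ζ : ℝ × ℝ, f ζ := h.symm
  rw [h2, Complex.real_smul, ← mul_assoc, ← Complex.ofReal_mul, mul_one_div_cancel hs.ne',
    Complex.ofReal_one, one_mul]

theorem nice_fr (α s : ℝ) (hs : 0 < s) {G : ℝ × ℝ → ℂ} (hG : Nice G) : Nice (fr α s G) := by
  obtain ⟨hm, ⟨B, hB⟩, r, hr⟩ := hG
  refine ⟨hm.comp (shA α s hs.ne').measurable, ⟨B, fun ζ => hB _⟩,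
    |r| + (|r| + |r| * |α|) / s, ?_⟩
  intro ζ hζ
  obtain ⟨h1, h2⟩ := hr (ζ.1, ζ.1 * α + s * ζ.2) hζ
  simp only at h1 h2
  have hr0 : r ≤ |r| := le_abs_self r
  have h3 : 0 ≤ (|r| + |r| * |α|) / s := by positivity
  refine ⟨by linarith, ?_⟩
  have h4 : |ζ.2| ≤ (|r| + |r| * |α|) / s := by
    rw [le_div_iff₀ hs]
    have h5 : |s * ζ.2| ≤ |ζ.1 * α + s * ζ.2| + |ζ.1 * α| := by
      calc |s * ζ.2| = |(ζ.1 * α + s * ζ.2) - ζ.1 * α| := by congr 1; ring
        _ ≤ _ := abs_sub _ _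
    rw [abs_mul, abs_of_pos hs, abs_mul] at h5
    have h6 : |ζ.1| * |α| ≤ |r| * |α| := mul_le_mul_of_nonneg_right (h1.trans hr0) (abs_nonneg _)
    linarith
  have := abs_nonneg r
  linarith

theorem ext_fr (α s : ℝ) (hs : 0 < s) {G : ℝ × ℝ → ℂ} (h1 : ∀ ζ, G ζ ≠ 0 → 1 ≤ ζ.1)
    (γ t x : ℝ) : T9h44.LG.Ext (Uo γ G) (t, x) =
      s * T9h44.LG.Ext (Uo (s ^ 2 * γ) (fr α s G)) (t + α * x + α ^ 2 * γ, s * (x + 2 * α * γ)) := by
  unfold Pool.Agent.T9h44.LG.Ext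
  rw [integral_shA α s hs]
  congr 1
  refine integral_congr_ae (Filter.Eventually.of_forall fun ζ => ?_)
  simp only [Uo, fr]
  by_cases h0 : G (ζ.1, ζ.1 * α + s * ζ.2) = 0
  · rw [h0]; simp
  · have hw : (1 : ℝ) ≤ ζ.1 := h1 (ζ.1, ζ.1 * α + s * ζ.2) h0
    have hw0 : ζ.1 ≠ 0 := by linarith
    rw [← mul_assoc, ← mul_assoc, ← ee_add, ← ee_add]
    congr 2
    simp only [qq]
    field_simp
    ring

theorem Wt_shB (α s ρ : ℝ) (z : ℝ × ℝ) :
    Wt α s ρ z = s * Wt 0 1 ρ (z.1 + α * z.2, s * z.2) := by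
  unfold Wt
  simp only [zero_mul, add_zero, one_mul]
  ring

theorem Uo_zero (G : ℝ × ℝ → ℂ) : Uo 0 G = G := by
  funext ζ
  simp only [Uo, zero_mul, ee_zero, one_mul]

theorem s_fr : S_fr := by
  intro α s hs G hG h1
  have hnf := nice_fr α s hs hG
  have hext := fun γ t x => ext_fr α s hs h1 γ t x
  have hsq : ∀ (γ : ℝ) (z : ℝ × ℝ), T9h44.LG.sq (Uo γ G) z = ENNReal.ofReal (s ^ 2) *
      T9h44.LG.sq (Uo (s ^ 2 * γ) (fr α s G)) (z.1 + α * z.2 + α ^ 2 * γ, s * (z.2 + 2 * α * γ)) := by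
    intro γ z
    unfold Pool.Agent.T9h44.LG.sq
    have := hext γ z.1 z.2
    rw [show (z.1, z.2) = z from rfl] at this
    rw [this, enorm_mul, mul_pow]
    congr 1
    rw [← ofReal_norm, Complex.norm_real, Real.norm_of_nonneg hs.le, ENNReal.ofReal_pow hs.le]
  refine ⟨hnf, hext, ?_, ?_⟩
  · intro γ ρ hρ
    set v := T9h44.LG.sq (Uo (s ^ 2 * γ) (fr α s G)) with hv
    have hAv : ∀ z : ℝ × ℝ, Av α s ρ (T9h44.LG.sq (Uo γ G)) z = ENNReal.ofReal (s ^ 2) *
        Av 0 1 ρ v (z.1 + α * z.2 + α ^ 2 * γ, s * (z.2 + 2 * α * γ)) := by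
      intro z
      unfold Av
      have h2 : ∀ z' : ℝ × ℝ, ENNReal.ofReal (Wt α s ρ (z - z')) * T9h44.LG.sq (Uo γ G) z' =
          ENNReal.ofReal (s ^ 3) * (fun y : ℝ × ℝ =>
            ENNReal.ofReal (Wt 0 1 ρ ((z.1 + α * z.2 + α ^ 2 * γ, s * (z.2 + 2 * α * γ)) - y)) * v y)
            (z'.1 + α * z'.2 + α ^ 2 * γ, s * (z'.2 + 2 * α * γ)) := by
        intro z'
        rw [hsq γ z', Wt_shB, ENNReal.ofReal_mul hs.le]
        have h3 : ((z - z').1 + α * (z - z').2, s * (z - z').2) =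
            ((z.1 + α * z.2 + α ^ 2 * γ, s * (z.2 + 2 * α * γ)) : ℝ × ℝ) -
              (z'.1 + α * z'.2 + α ^ 2 * γ, s * (z'.2 + 2 * α * γ)) := by
          ext
          · simp only [Prod.fst_sub, Prod.snd_sub]; ring
          · simp only [Prod.snd_sub]; ring
        rw [h3, show s ^ 3 = s * s ^ 2 by ring, ENNReal.ofReal_mul hs.le]
        simp only []
        ring
      rw [lintegral_congr h2, lintegral_const_mul' _ _ ENNReal.ofReal_ne_top,
        lintegral_shB α s (α ^ 2 * γ) (2 * α * γ) hs (fun y : ℝ × ℝ =>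
            ENNReal.ofReal (Wt 0 1 ρ ((z.1 + α * z.2 + α ^ 2 * γ, s * (z.2 + 2 * α * γ)) - y)) * v y),
        ← mul_assoc, ← ENNReal.ofReal_mul (by positivity)]
      congr 2
      field_simp
    have h4 : ∀ z : ℝ × ℝ, Av α s ρ (T9h44.LG.sq (Uo γ G)) z ^ 2 = ENNReal.ofReal (s ^ 4) *
        (fun y => Av 0 1 ρ v y ^ 2) (z.1 + α * z.2 + α ^ 2 * γ, s * (z.2 + 2 * α * γ)) := by
      intro z
      rw [hAv z, mul_pow, ← ENNReal.ofReal_pow (by positivity)]
      congr 2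
      ring
    rw [lintegral_congr h4, lintegral_const_mul' _ _ ENNReal.ofReal_ne_top,
      lintegral_shB α s (α ^ 2 * γ) (2 * α * γ) hs (fun y => Av 0 1 ρ v y ^ 2), ← mul_assoc,
      ← ENNReal.ofReal_mul (by positivity)]
    congr 2
    field_simp
  · have h5 : ∀ z : ℝ × ℝ, ‖T9h44.LG.Ext G z‖ₑ ^ 4 = ENNReal.ofReal (s ^ 4) *
        (fun y => ‖T9h44.LG.Ext (fr α s G) y‖ₑ ^ 4) (z.1 + α * z.2 + 0, s * (z.2 + 0)) := by
      intro z
      have := hext 0 z.1 z.2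
      rw [Uo_zero, mul_zero, mul_zero, mul_zero, Uo_zero, show (z.1, z.2) = z from rfl] at this
      rw [this, enorm_mul, mul_pow]
      congr 1
      rw [← ofReal_norm, Complex.norm_real, Real.norm_of_nonneg hs.le, ENNReal.ofReal_pow hs.le]
    rw [lintegral_congr h5, lintegral_const_mul' _ _ ENNReal.ofReal_ne_top,
      lintegral_shB α s 0 0 hs (fun y => ‖T9h44.LG.Ext (fr α s G) y‖ₑ ^ 4), ← mul_assoc, ← ENNReal.ofReal_mul (by positivity)]
    congr 2
    field_simp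

end Pool.Agent.T9h69.LG
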