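import Pool.Agent.T9h19.LS.Interp

/-!
Marcinkiewicz interpolation between `L² → ℓ² L²` and `L^∞ → ℓ^∞ L^∞` (the sum form), for
helper44 (MP_ee74d2_an, piece S4). Port of `Pool.Agent.T9h18.LS.interp_inf`.

Author: helper69.
-/

set_option autoImplicit false

namespace Pool.Agent.T9h69.LG

open MeasureTheory Set
open scoped ENNReal
open Pool.Agent.T9h19.LS (lint_low cheb inner_high)

/-- interpolation between the exponents `2` and `∞` for a finite family of operators -/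
theorem interp_sum {ι Y X : Type*} [MeasurableSpace Y] [MeasurableSpace X] {ν : Measure Y}
    [SFinite ν] {μ : Measure X} {p : ℝ} (hp2 : 2 < p) (J : Finset ι)
    (T : ι → (Y → ℂ) → X → ℂ) {A2 : ℝ≥0∞} {Ai : ℝ} (hAi : 0 < Ai)
    (hT : ∀ j F, T9h19.LS.Nice ν F → AEStronglyMeasurable (T j F) μ)
    (h2 : ∀ F, T9h19.LS.Nice ν F → ∑ j ∈ J, ∫⁻ x, ‖T j F x‖ₑ ^ (2 : ℝ) ∂μ ≤
      A2 * ∫⁻ y, ‖F y‖ₑ ^ (2 : ℝ) ∂ν)
    (hi : ∀ j F, T9h19.LS.Nice ν F → ∀ B : ℝ, (∀ y, ‖F y‖ ≤ B) → ∀ᵐ x ∂μ, ‖T j F x‖ ≤ Ai * B)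
    (hs : ∀ j F G, T9h19.LS.Nice ν F → T9h19.LS.Nice ν G →
      ∀ᵐ x ∂μ, ‖T j (F + G) x‖ ≤ ‖T j F x‖ + ‖T j G x‖)
    {F : Y → ℂ} (hF : T9h19.LS.Nice ν F) :
    ∑ j ∈ J, ∫⁻ x, ‖T j F x‖ₑ ^ p ∂μ ≤ ENNReal.ofReal p *
      (4 * A2 * ENNReal.ofReal ((1 / (2 * Ai)) ^ (2 - p) / (p - 2))) * ∫⁻ y, ‖F y‖ₑ ^ p ∂ν := by
  obtain ⟨hFm, hFi, B, hB⟩ := hF
  have hp0 : 0 < p := by linarith
  obtain ⟨c, hc⟩ : ∃ c : ℝ, c = 1 / (2 * Ai) := ⟨_, rfl⟩
  have hc0 : 0 < c := by rw [hc]; positivity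
  have hAc : Ai * c = 1 / 2 := by
    rw [hc]
    field_simp
  rw [← hc]
  set Hh : ℝ → Y → ℝ≥0∞ := fun t y => (if c * t < ‖F y‖ then ENNReal.ofReal (‖F y‖ ^ 2) else 0) *
    ENNReal.ofReal (t ^ (p - 3)) with hHh
  have hmh : Measurable (Function.uncurry Hh) := by
    apply Measurable.mul
    · apply Measurable.ite
      · exact measurableSet_lt (by fun_prop) (by fun_prop)
      · fun_prop
      · fun_prop
    · fun_prop
  -- the pointwise bound
  have key : ∀ t ∈ Ioi (0 : ℝ), (∑ j ∈ J, μ {x | t < ‖T j F x‖} * ENNReal.ofReal (t ^ (p - 1))) ≤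
      4 * A2 * ∫⁻ y, Hh t y ∂ν := by
    intro t ht
    have ht0 : 0 < t := ht
    set Fh : Y → ℂ := fun y => if c * t < ‖F y‖ then F y else 0 with hFh
    set Fl : Y → ℂ := fun y => if ‖F y‖ ≤ c * t then F y else 0 with hFl
    have hsum : F = Fh + Fl := by
      funext y
      simp only [hFh, hFl, Pi.add_apply]
      by_cases h : c * t < ‖F y‖
      · rw [if_pos h, if_neg (not_le.mpr h), add_zero]
      · rw [if_neg h, if_pos (not_lt.mp h), zero_add]
    have nh : T9h19.LS.Nice ν Fh := by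
      have hm : Measurable Fh := Measurable.ite (measurableSet_lt (by fun_prop) (by fun_prop))
        hFm measurable_const
      refine ⟨hm, hFi.mono hm.aestronglyMeasurable (Filter.Eventually.of_forall fun y => ?_), B,
        fun y => ?_⟩
      · simp only [hFh]
        split_ifs
        · exact le_rfl
        · simp
      · simp only [hFh]
        split_ifs
        · exact hB y
        · simpa using (norm_nonneg (F y)).trans (hB y)
    have nl : T9h19.LS.Nice ν Fl := by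
      have hm : Measurable Fl := Measurable.ite (measurableSet_le (by fun_prop) (by fun_prop))
        hFm measurable_const
      refine ⟨hm, hFi.mono hm.aestronglyMeasurable (Filter.Eventually.of_forall fun y => ?_), B,
        fun y => ?_⟩
      · simp only [hFl]
        split_ifs
        · exact le_rfl
        · simp
      · simp only [hFl]
        split_ifs
        · exact hB y
        · simpa using (norm_nonneg (F y)).trans (hB y)
    have hFlb : ∀ y, ‖Fl y‖ ≤ c * t := by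
      intro y
      simp only [hFl]
      split_ifs with h
      · exact h
      · rw [norm_zero]
        positivity
    have hsub : ∀ j, μ {x | t < ‖T j F x‖} ≤ μ {x | t / 2 < ‖T j Fh x‖} := by
      intro j
      refine measure_mono_ae ?_
      have h := hs j Fh Fl nh nl
      rw [← hsum] at h
      filter_upwards [h, hi j Fl nl (c * t) hFlb] with x hx hx3
      intro hx2
      have hx4 : t < ‖T j F x‖ := hx2
      change t / 2 < ‖T j Fh x‖
      have e : Ai * (c * t) = t / 2 := by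
        rw [← mul_assoc, hAc]
        ring
      rw [e] at hx3
      linarith
    have e4 : ∫⁻ y, ‖Fh y‖ₑ ^ (2 : ℝ) ∂ν =
        ∫⁻ y, (if c * t < ‖F y‖ then ENNReal.ofReal (‖F y‖ ^ 2) else 0) ∂ν := by
      refine lintegral_congr fun y => ?_
      simp only [hFh]
      split_ifs
      · rw [show (2 : ℝ) = ((2 : ℕ) : ℝ) by norm_num, ENNReal.rpow_natCast, ← ofReal_norm,
          ← ENNReal.ofReal_pow (norm_nonneg _)]
      · simp
    have c4 : ∀ j, μ {x | t / 2 < ‖T j Fh x‖} ≤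
        ENNReal.ofReal (((t / 2) ^ 2)⁻¹) * ∫⁻ x, ‖T j Fh x‖ₑ ^ (2 : ℝ) ∂μ := by
      intro j
      have c4 := cheb (hT j Fh nh) (half_pos ht0) 2
      push_cast at c4
      exact c4
    have b4 := h2 Fh nh
    rw [e4] at b4
    have i4 : ∫⁻ y, Hh t y ∂ν =
        (∫⁻ y, (if c * t < ‖F y‖ then ENNReal.ofReal (‖F y‖ ^ 2) else 0) ∂ν) *
          ENNReal.ofReal (t ^ (p - 3)) := by
      simp only [hHh]
      rw [lintegral_mul_const' _ _ ENNReal.ofReal_ne_top]
    have r4 : ENNReal.ofReal (((t / 2) ^ 2)⁻¹) * ENNReal.ofReal (t ^ (p - 1)) =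
        4 * ENNReal.ofReal (t ^ (p - 3)) := by
      rw [← ENNReal.ofReal_mul (by positivity), show (4 : ℝ≥0∞) = ENNReal.ofReal 4 by simp,
        ← ENNReal.ofReal_mul (by positivity)]
      congr 1
      have : t ^ (p - 1) = t ^ (p - 3) * t ^ 2 := by
        rw [← Real.rpow_natCast, ← Real.rpow_add ht0]
        congr 1
        push_cast
        ring
      rw [this]
      field_simp
      norm_num
    rw [i4]
    set I4 := ∫⁻ y, (if c * t < ‖F y‖ then ENNReal.ofReal (‖F y‖ ^ 2) else 0) ∂ν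
    calc ∑ j ∈ J, μ {x | t < ‖T j F x‖} * ENNReal.ofReal (t ^ (p - 1))
        ≤ ∑ j ∈ J, (ENNReal.ofReal (((t / 2) ^ 2)⁻¹) * ∫⁻ x, ‖T j Fh x‖ₑ ^ (2 : ℝ) ∂μ) *
            ENNReal.ofReal (t ^ (p - 1)) := by
          refine Finset.sum_le_sum fun j _ => ?_
          gcongr
          exact (hsub j).trans (c4 j)
      _ = (ENNReal.ofReal (((t / 2) ^ 2)⁻¹) * ENNReal.ofReal (t ^ (p - 1))) *
            ∑ j ∈ J, ∫⁻ x, ‖T j Fh x‖ₑ ^ (2 : ℝ) ∂μ := by
          rw [Finset.mul_sum]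
          refine Finset.sum_congr rfl fun j _ => ?_
          ring
      _ ≤ (ENNReal.ofReal (((t / 2) ^ 2)⁻¹) * ENNReal.ofReal (t ^ (p - 1))) * (A2 * I4) := by
          gcongr
      _ = 4 * A2 * (I4 * ENNReal.ofReal (t ^ (p - 3))) := by
          rw [r4]
          ring
  -- layer cake
  have lc : ∀ j, ∫⁻ x, ‖T j F x‖ₑ ^ p ∂μ =
      ENNReal.ofReal p *
        ∫⁻ t in Ioi (0 : ℝ), μ {x | t < ‖T j F x‖} * ENNReal.ofReal (t ^ (p - 1)) := by
    intro j
    rw [← lintegral_rpow_eq_lintegral_meas_lt_mul μ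
      (Filter.Eventually.of_forall fun x => norm_nonneg _)
      (hT j F ⟨hFm, hFi, B, hB⟩).norm.aemeasurable hp0]
    refine lintegral_congr fun x => ?_
    rw [← ofReal_norm, ENNReal.ofReal_rpow_of_nonneg (norm_nonneg _) hp0.le]
  have sw4 : ∫⁻ t in Ioi (0 : ℝ), ∫⁻ y, Hh t y ∂ν =
      ENNReal.ofReal (c ^ (2 - p) / (p - 2)) * ∫⁻ y, ‖F y‖ₑ ^ p ∂ν := by
    rw [lintegral_lintegral_swap hmh.aemeasurable, ← lintegral_const_mul' _ _ ENNReal.ofReal_ne_top]
    refine lintegral_congr fun y => ?_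
    rw [← ofReal_norm, ENNReal.ofReal_rpow_of_nonneg (norm_nonneg _) hp0.le]
    exact inner_high hp2 hc0 (norm_nonneg _)
  have m4 : Measurable fun t : ℝ => ∫⁻ y, Hh t y ∂ν := hmh.lintegral_prod_right'
  have mt : ∀ j, Measurable fun t : ℝ => μ {x | t < ‖T j F x‖} * ENNReal.ofReal (t ^ (p - 1)) := by
    intro j
    refine Measurable.mul ?_ (by fun_prop)
    exact Antitone.measurable fun a b hab => measure_mono fun x hx => lt_of_le_of_lt hab hx
  calc ∑ j ∈ J, ∫⁻ x, ‖T j F x‖ₑ ^ p ∂μ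
      = ENNReal.ofReal p * ∫⁻ t in Ioi (0 : ℝ),
          ∑ j ∈ J, μ {x | t < ‖T j F x‖} * ENNReal.ofReal (t ^ (p - 1)) := by
        rw [lintegral_finsetSum _ (fun j _ => mt j), Finset.mul_sum]
        exact Finset.sum_congr rfl fun j _ => lc j
    _ ≤ ENNReal.ofReal p * ∫⁻ t in Ioi (0 : ℝ), (4 * A2 * ∫⁻ y, Hh t y ∂ν) :=
        mul_le_mul' le_rfl (setLIntegral_mono' measurableSet_Ioi key)
    _ = ENNReal.ofReal p * (4 * A2 * ∫⁻ t in Ioi (0 : ℝ), ∫⁻ y, Hh t y ∂ν) := by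
        rw [lintegral_const_mul _ m4]
    _ = _ := by
        rw [sw4]
        ring

end Pool.Agent.T9h69.LG
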