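import Pool.Agent.T9h44.LG.Spec
import Pool.Agent.T9h31.LG.Wl
import Pool.Agent.T9h69.LG.Fr
import Pool.Agent.T9h69.LG.Int

/-!
Piece (S4) for helper44 (MP_ee74d2_an): the pieces of the slopes, exponent 4.

Author: helper69.
-/

set_option autoImplicit false

namespace Pool.Agent.T9h69.LG

open MeasureTheory Real Pool.Agent.T9h44.LG Pool.Agent.T9h31.LG
open scoped ENNReal ComplexConjugate

/-- the bump in `w`: `1` on `[1, 2]`, `0` off `[1/2, 3]` -/
noncomputable def bw (w : ℝ) : ℝ := Real.smoothTransition (2 * w - 1) * Real.smoothTransition (3 - w)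

theorem contDiff_bw : ContDiff ℝ (⊤ : ℕ∞) bw := by
  unfold bw
  exact (Real.smoothTransition.contDiff.comp (by fun_prop)).mul
    (Real.smoothTransition.contDiff.comp (by fun_prop))

theorem contDiff_wid : ContDiff ℝ (⊤ : ℕ∞) wid := by
  unfold wid
  exact (Real.smoothTransition.contDiff.comp (by fun_prop)).mul
    (Real.smoothTransition.contDiff.comp (by fun_prop))

theorem bw_one {w : ℝ} (h1 : 1 ≤ w) (h2 : w ≤ 2) : bw w = 1 := by
  unfold bw
  rw [Real.smoothTransition.one_of_one_le (by linarith),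
    Real.smoothTransition.one_of_one_le (by linarith), one_mul]

theorem bw_supp {w : ℝ} (h : bw w ≠ 0) : 1 / 2 < w ∧ w < 3 := by
  unfold bw at h
  constructor
  · by_contra hc
    push Not at hc
    apply h
    rw [Real.smoothTransition.zero_of_nonpos (by linarith), zero_mul]
  · by_contra hc
    push Not at hc
    apply h
    rw [Real.smoothTransition.zero_of_nonpos (x := 3 - w) (by linarith), mul_zero]

theorem bw_nonneg (w : ℝ) : 0 ≤ bw w :=
  mul_nonneg (Real.smoothTransition.nonneg _) (Real.smoothTransition.nonneg _)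

theorem bw_le_one (w : ℝ) : bw w ≤ 1 :=
  mul_le_one₀ (Real.smoothTransition.le_one _) (Real.smoothTransition.nonneg _)
    (Real.smoothTransition.le_one _)

theorem wid_nonneg (w : ℝ) : 0 ≤ wid w :=
  mul_nonneg (Real.smoothTransition.nonneg _) (Real.smoothTransition.nonneg _)

theorem wid_le_one (w : ℝ) : wid w ≤ 1 :=
  mul_le_one₀ (Real.smoothTransition.le_one _) (Real.smoothTransition.nonneg _)
    (Real.smoothTransition.le_one _)

theorem wid_supp {x : ℝ} (h : wid x ≠ 0) : |x| < 8 := by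
  unfold wid at h
  rw [abs_lt]
  constructor
  · by_contra hc
    push Not at hc
    apply h
    rw [Real.smoothTransition.zero_of_nonpos (x := 8 + x) (by linarith), mul_zero]
  · by_contra hc
    push Not at hc
    apply h
    rw [Real.smoothTransition.zero_of_nonpos (x := 8 - x) (by linarith), zero_mul]

/-- the multiplier -/
noncomputable def mm (a c : ℝ) (ζ : ℝ × ℝ) : ℂ := ((bw ζ.1 * wid (a * (ζ.2 / ζ.1) - c) : ℝ) : ℂ)

theorem test_mm {a : ℝ} (ha : 0 < a) (c : ℝ) : Test (mm a c) := by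
  constructor
  · rw [contDiff_iff_contDiffAt]
    intro ζ
    by_cases h0 : ζ.1 = 0
    · have h1 : mm a c =ᶠ[nhds ζ] fun _ => 0 := by
        have h2 : ∀ᶠ ζ' : ℝ × ℝ in nhds ζ, ζ'.1 < 1 / 2 := by
          refine (continuous_fst.tendsto ζ).eventually (Iio_mem_nhds ?_)
          rw [h0]; norm_num
        filter_upwards [h2] with ζ' h
        have h3 : bw ζ'.1 = 0 := by
          by_contra hc
          have := (bw_supp hc).1
          linarith
        simp only [mm, h3, zero_mul, Complex.ofReal_zero]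
      exact contDiffAt_const.congr_of_eventuallyEq h1
    · unfold mm
      refine Complex.ofRealCLM.contDiff.contDiffAt.comp ζ ?_
      refine ContDiffAt.mul ?_ ?_
      · exact contDiff_bw.contDiffAt.comp ζ contDiffAt_fst
      · refine contDiff_wid.contDiffAt.comp ζ ?_
        exact (contDiffAt_const.mul (contDiffAt_snd.div contDiffAt_fst h0)).sub contDiffAt_const
  · refine HasCompactSupport.intro (K := Metric.closedBall 0 (3 + 3 * (8 + |c|) / a))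
      (isCompact_closedBall _ _) ?_
    intro ζ hζ
    by_contra hc
    apply hζ
    have h1 : bw ζ.1 * wid (a * (ζ.2 / ζ.1) - c) ≠ 0 := by
      intro h
      apply hc
      simp only [mm, h, Complex.ofReal_zero]
    obtain ⟨h2, h3⟩ := bw_supp (left_ne_zero_of_mul h1)
    have h4 := wid_supp (right_ne_zero_of_mul h1)
    have h5 : |ζ.2| ≤ 3 * (8 + |c|) / a := by
      have h6 : |a * (ζ.2 / ζ.1)| ≤ 8 + |c| := by
        calc |a * (ζ.2 / ζ.1)| = |(a * (ζ.2 / ζ.1) - c) + c| := by congr 1; ring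
          _ ≤ |a * (ζ.2 / ζ.1) - c| + |c| := abs_add_le _ _
          _ ≤ _ := by linarith
      rw [abs_mul, abs_div, abs_of_pos ha, abs_of_pos (by linarith : (0 : ℝ) < ζ.1)] at h6
      rw [le_div_iff₀ ha]
      have h7 : a * (|ζ.2| / ζ.1) * ζ.1 = |ζ.2| * a := by
        field_simp
      rw [← h7]
      have h8 : 0 ≤ 8 + |c| := by positivity
      calc a * (|ζ.2| / ζ.1) * ζ.1 ≤ (8 + |c|) * ζ.1 :=
            mul_le_mul_of_nonneg_right h6 (by linarith)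
        _ ≤ (8 + |c|) * 3 := mul_le_mul_of_nonneg_left h3.le h8
        _ = _ := by ring
    rw [mem_closedBall_zero_iff, Prod.norm_def]
    have h9 : 0 ≤ 3 * (8 + |c|) / a := by positivity
    refine max_le ?_ ?_
    · rw [Real.norm_eq_abs, abs_le]
      constructor <;> linarith
    · rw [Real.norm_eq_abs]
      linarith

theorem norm_mm_le (a c : ℝ) (ζ : ℝ × ℝ) : ‖mm a c ζ‖ ≤ 1 := by
  unfold mm
  rw [Complex.norm_real, Real.norm_of_nonneg (mul_nonneg (bw_nonneg _) (wid_nonneg _))]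
  exact mul_le_one₀ (bw_le_one _) (wid_nonneg _) (wid_le_one _)

/-- change of the variables without a condition on the support -/
theorem ext_fr0 (α s : ℝ) (hs : 0 < s) (G : ℝ × ℝ → ℂ) (z : ℝ × ℝ) : T9h44.LG.Ext G z =
      s * T9h44.LG.Ext (fr α s G) (z.1 + α * z.2, s * z.2) := by
  unfold Pool.Agent.T9h44.LG.Ext
  rw [integral_shA α s hs]
  congr 1
  refine integral_congr_ae (Filter.Eventually.of_forall fun ζ => ?_)
  simp only [fr]
  congr 2
  ring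

theorem fr_mm {a : ℝ} (ha : 0 < a) (c : ℝ) : fr (c / a) (1 / a) (mm a c) = mm 1 0 := by
  funext ζ
  simp only [fr, mm]
  by_cases h0 : ζ.1 = 0
  · have h3 : bw ζ.1 = 0 := by
      by_contra hc
      have := (bw_supp hc).1
      linarith
    rw [h3, zero_mul, zero_mul]
  · congr 3
    field_simp
    ring

/-- the norm of the kernels -/
theorem enorm_mm {a : ℝ} (ha : 0 < a) (c : ℝ) :
    ∫⁻ z : ℝ × ℝ, ‖T9h44.LG.Ext (mm a c) z‖ₑ = ∫⁻ z : ℝ × ℝ, ‖T9h44.LG.Ext (mm 1 0) z‖ₑ := by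
  have hs : 0 < 1 / a := by positivity
  have h1 : ∀ z : ℝ × ℝ, ‖T9h44.LG.Ext (mm a c) z‖ₑ = ENNReal.ofReal (1 / a) *
      (fun y => ‖T9h44.LG.Ext (mm 1 0) y‖ₑ) (z.1 + (c / a) * z.2 + 0, (1 / a) * (z.2 + 0)) := by
    intro z
    rw [ext_fr0 (c / a) (1 / a) hs, fr_mm ha, enorm_mul, add_zero, add_zero]
    congr 1
    rw [← ofReal_norm, Complex.norm_real, Real.norm_of_nonneg hs.le]
  rw [lintegral_congr h1, lintegral_const_mul' _ _ ENNReal.ofReal_ne_top,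
    lintegral_shB (c / a) (1 / a) 0 0 hs (fun y => ‖T9h44.LG.Ext (mm 1 0) y‖ₑ), ← mul_assoc,
    ← ENNReal.ofReal_mul hs.le]
  have : 1 / a * (1 / (1 / a)) = 1 := by field_simp
  rw [this, ENNReal.ofReal_one, one_mul]

theorem norm_int_mm {a : ℝ} (ha : 0 < a) (c : ℝ) :
    ∫ z : ℝ × ℝ, ‖T9h44.LG.Ext (mm a c) z‖ = ∫ z : ℝ × ℝ, ‖T9h44.LG.Ext (mm 1 0) z‖ := by
  rw [integral_norm_eq_lintegral_enorm (continuous_Ext (test_mm ha c).nice).aestronglyMeasurable,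
    integral_norm_eq_lintegral_enorm
      (continuous_Ext (test_mm one_pos 0).nice).aestronglyMeasurable, enorm_mm ha]

/-- the operators -/
noncomputable def Tj (k : ℕ) (j : ℤ) (F : ℝ × ℝ → ℂ) (z : ℝ × ℝ) : ℂ :=
  ∫ y' : ℝ × ℝ, T9h44.LG.Ext (mm (2 ^ k) j) (z - y') * F y'

theorem pow_pos' (k : ℕ) : (0 : ℝ) < 2 ^ k := by positivity

theorem Tj_sup (k : ℕ) (j : ℤ) {F : ℝ × ℝ → ℂ} {B : ℝ} (hB : ∀ y, ‖F y‖ ≤ B) (z : ℝ × ℝ) :
    ‖Tj k j F z‖ ≤ ((∫ z : ℝ × ℝ, ‖T9h44.LG.Ext (mm 1 0) z‖) + 1) * B := by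
  have hB0 : 0 ≤ B := (norm_nonneg _).trans (hB 0)
  have hi := Ext_integrable (test_mm (pow_pos' k) j)
  have h1 : ‖Tj k j F z‖ ≤ ∫ y' : ℝ × ℝ, ‖T9h44.LG.Ext (mm (2 ^ k) j) (z - y')‖ * B := by
    refine norm_integral_le_of_norm_le ?_ (Filter.Eventually.of_forall fun y' => ?_)
    · exact (hi.comp_sub_left z).norm.mul_const B
    · rw [norm_mul]
      exact mul_le_mul_of_nonneg_left (hB y') (norm_nonneg _)
  rw [integral_mul_const, integral_sub_left_eq_self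
    (fun y => ‖T9h44.LG.Ext (mm (2 ^ k) j) y‖) volume z, norm_int_mm (pow_pos' k)] at h1
  nlinarith

/-- number of the pieces at a point -/
theorem sum_mm_le (k : ℕ) (J : Finset ℤ) (ζ : ℝ × ℝ) :
    ∑ j ∈ J, ‖mm (2 ^ k) (j : ℝ) ζ‖ₑ ^ 2 ≤ 17 := by
  classical
  set x : ℝ := 2 ^ k * (ζ.2 / ζ.1) with hx
  have h1 : ∑ j ∈ J, ‖mm (2 ^ k) (j : ℝ) ζ‖ₑ ^ 2 =
      ∑ j ∈ J.filter (fun j : ℤ => mm (2 ^ k) (j : ℝ) ζ ≠ 0), ‖mm (2 ^ k) (j : ℝ) ζ‖ₑ ^ 2 := by
    symm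
    refine Finset.sum_filter_of_ne (p := fun j : ℤ => mm (2 ^ k) (j : ℝ) ζ ≠ 0) ?_
    intro j _ h hc
    apply h
    rw [hc]; simp
  have h2 : J.filter (fun j : ℤ => mm (2 ^ k) (j : ℝ) ζ ≠ 0) ⊆ Finset.Icc (⌈x - 8⌉) (⌊x + 8⌋) := by
    intro j hj
    rw [Finset.mem_filter] at hj
    have h3 : wid (2 ^ k * (ζ.2 / ζ.1) - j) ≠ 0 := by
      intro h
      apply hj.2
      simp only [mm, h, mul_zero, Complex.ofReal_zero]
    have h4 := wid_supp h3
    rw [← hx, abs_lt] at h4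
    rw [Finset.mem_Icc]
    constructor
    · rw [Int.ceil_le]; linarith
    · rw [Int.le_floor]; linarith
  have h5 : (Finset.Icc (⌈x - 8⌉) (⌊x + 8⌋)).card ≤ 17 := by
    rw [Int.card_Icc]
    have h6 : (⌊x + 8⌋ : ℝ) ≤ x + 8 := Int.floor_le _
    have h7 : x - 8 ≤ (⌈x - 8⌉ : ℝ) := Int.le_ceil _
    have h8 : ⌊x + 8⌋ + 1 - ⌈x - 8⌉ ≤ 17 := by
      have : ((⌊x + 8⌋ + 1 - ⌈x - 8⌉ : ℤ) : ℝ) ≤ 17 := by push_cast; linarith
      exact_mod_cast this
    omega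
  rw [h1]
  calc ∑ j ∈ J.filter (fun j : ℤ => mm (2 ^ k) (j : ℝ) ζ ≠ 0), ‖mm (2 ^ k) (j : ℝ) ζ‖ₑ ^ 2
      ≤ ∑ j ∈ J.filter (fun j : ℤ => mm (2 ^ k) (j : ℝ) ζ ≠ 0), 1 := by
        refine Finset.sum_le_sum fun j _ => ?_
        refine pow_le_one' ?_ 2
        rw [← ofReal_norm]
        exact ENNReal.ofReal_le_one.mpr (norm_mm_le _ _ _)
    _ = ((J.filter (fun j : ℤ => mm (2 ^ k) (j : ℝ) ζ ≠ 0)).card : ℝ≥0∞) := by simp
    _ ≤ 17 := by
        have := (Finset.card_le_card h2).trans h5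
        exact_mod_cast this

theorem memLp_two_of {F : ℝ × ℝ → ℂ} (hF : T9h19.LS.Nice volume F) : MemLp F 2 := by
  obtain ⟨hm, hi, B, hB⟩ := hF
  rw [memLp_two_iff hm.aestronglyMeasurable]
  have hb : ∀ ζ, ‖F ζ‖ₑ ^ 2 ≤ ENNReal.ofReal B * ‖F ζ‖ₑ := by
    intro ζ
    rw [pow_two]
    refine mul_le_mul' ?_ le_rfl
    rw [← ofReal_norm]
    exact ENNReal.ofReal_le_ofReal (hB ζ)
  refine (lintegral_mono hb).trans_lt ?_
  rw [lintegral_const_mul' _ _ ENNReal.ofReal_ne_top]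
  exact ENNReal.mul_lt_top ENNReal.ofReal_lt_top hi.2

theorem Tj_two (k : ℕ) (J : Finset ℤ) {F : ℝ × ℝ → ℂ} (hF : T9h19.LS.Nice volume F) :
    ∑ j ∈ J, ∫⁻ z, ‖Tj k j F z‖ₑ ^ (2 : ℝ) ≤ 17 * ∫⁻ y, ‖F y‖ₑ ^ (2 : ℝ) := by
  simp only [ENNReal.rpow_ofNat]
  have h1 : ∀ j : ℤ, ∫⁻ z, ‖Tj k j F z‖ₑ ^ 2 =
      ∫⁻ ζ, ‖mm (2 ^ k) (j : ℝ) ζ‖ₑ ^ 2 * ‖ftr F ζ‖ₑ ^ 2 := by
    intro j
    have h2 : ∀ z, Tj k j F z =
        T9h44.LG.Ext (fun ζ => mm (2 ^ k) (j : ℝ) ζ * ftr F ζ) z := fun z =>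
      conv_eq (test_mm (pow_pos' k) j) hF.2.1 z
    simp only [h2]
    rw [planch_Ext (nice_mul (test_mm (pow_pos' k) j) hF.2.1)]
    refine lintegral_congr fun ζ => ?_
    rw [enorm_mul, mul_pow]
  calc ∑ j ∈ J, ∫⁻ z, ‖Tj k j F z‖ₑ ^ 2
      = ∫⁻ ζ, ∑ j ∈ J, ‖mm (2 ^ k) (j : ℝ) ζ‖ₑ ^ 2 * ‖ftr F ζ‖ₑ ^ 2 := by
        rw [lintegral_finsetSum _ (fun j _ => ?_)]
        · exact Finset.sum_congr rfl fun j _ => h1 j
        · exact ((test_mm (pow_pos' k) (j : ℝ)).cont.measurable.enorm.pow_const 2).mul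
            ((continuous_ftr hF.2.1).measurable.enorm.pow_const 2)
    _ ≤ ∫⁻ ζ, 17 * ‖ftr F ζ‖ₑ ^ 2 := by
        refine lintegral_mono fun ζ => ?_
        rw [← Finset.sum_mul]
        exact mul_le_mul' (sum_mm_le k J ζ) le_rfl
    _ = 17 * ∫⁻ y, ‖F y‖ₑ ^ 2 := by
        rw [lintegral_const_mul' _ _ (by norm_num)]
        congr 1
        exact planch2' F hF.2.1 (memLp_two_of hF)

theorem Tj_meas (k : ℕ) (j : ℤ) {F : ℝ × ℝ → ℂ} (hF : Integrable F) :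
    Continuous (Tj k j F) := by
  have h2 : Tj k j F = T9h44.LG.Ext (fun ζ => mm (2 ^ k) (j : ℝ) ζ * ftr F ζ) :=
    funext fun z => conv_eq (test_mm (pow_pos' k) j) hF z
  rw [h2]
  exact continuous_Ext (nice_mul (test_mm (pow_pos' k) j) hF)

theorem Tj_int (k : ℕ) (j : ℤ) {F : ℝ × ℝ → ℂ} (hm : Measurable F) {B : ℝ}
    (hB : ∀ y, ‖F y‖ ≤ B) (z : ℝ × ℝ) :
    Integrable fun y' : ℝ × ℝ => T9h44.LG.Ext (mm (2 ^ k) j) (z - y') * F y' := by
  have hi := Ext_integrable (test_mm (pow_pos' k) j)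
  refine ((hi.comp_sub_left z).norm.mul_const B).mono' ?_
    (Filter.Eventually.of_forall fun y' => ?_)
  · exact ((continuous_Ext (test_mm (pow_pos' k) j).nice).comp
      (by fun_prop)).aestronglyMeasurable.mul hm.aestronglyMeasurable
  · rw [norm_mul]
    exact mul_le_mul_of_nonneg_left (hB y') (norm_nonneg _)

/-- the constant -/
noncomputable def c4 : ℝ := 4 * (4 * 17 *
  ((1 / (2 * ((∫ z : ℝ × ℝ, ‖T9h44.LG.Ext (mm 1 0) z‖) + 1))) ^ ((2 : ℝ) - 4) / (4 - 2)))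

theorem c4_pos : 0 < c4 := by
  have h : 0 < (∫ z : ℝ × ℝ, ‖T9h44.LG.Ext (mm 1 0) z‖) + 1 := by
    have : 0 ≤ ∫ z : ℝ × ℝ, ‖T9h44.LG.Ext (mm 1 0) z‖ := integral_nonneg fun _ => norm_nonneg _
    linarith
  unfold c4
  have h2 : (0 : ℝ) < 4 - 2 := by norm_num
  positivity

theorem Tj_four (k : ℕ) (J : Finset ℤ) {F : ℝ × ℝ → ℂ} (hF : T9h19.LS.Nice volume F) :
    ∑ j ∈ J, ∫⁻ z, ‖Tj k j F z‖ₑ ^ 4 ≤ ENNReal.ofReal c4 * ∫⁻ y, ‖F y‖ₑ ^ 4 := by
  have hA : 0 < (∫ z : ℝ × ℝ, ‖T9h44.LG.Ext (mm 1 0) z‖) + 1 := by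
    have : 0 ≤ ∫ z : ℝ × ℝ, ‖T9h44.LG.Ext (mm 1 0) z‖ := integral_nonneg fun _ => norm_nonneg _
    linarith
  have h := interp_sum (μ := (volume : Measure (ℝ × ℝ))) (ν := (volume : Measure (ℝ × ℝ)))
    (p := 4) (by norm_num) J (Tj k) hA
    (fun j F hF => (Tj_meas k j hF.2.1).aestronglyMeasurable)
    (fun F hF => Tj_two k J hF)
    (fun j F hF B hB => Filter.Eventually.of_forall fun z => Tj_sup k j hB z)
    (fun j F G hF hG => Filter.Eventually.of_forall fun z => ?_) hF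
  · simp only [ENNReal.rpow_ofNat] at h
    refine h.trans (le_of_eq ?_)
    congr 1
    unfold c4
    rw [show (4 : ℝ≥0∞) = ENNReal.ofReal 4 by simp, show (17 : ℝ≥0∞) = ENNReal.ofReal 17 by simp,
      ← ENNReal.ofReal_mul (by norm_num), ← ENNReal.ofReal_mul (by norm_num),
      ← ENNReal.ofReal_mul (by norm_num)]
  · obtain ⟨hFm, _, B, hB⟩ := hF
    obtain ⟨hGm, _, B', hB'⟩ := hG
    have : Tj k j (F + G) z = Tj k j F z + Tj k j G z := by
      unfold Tj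
      rw [← integral_add (Tj_int k j hFm hB z) (Tj_int k j hGm hB' z)]
      refine integral_congr_ae (Filter.Eventually.of_forall fun y => ?_)
      simp only [Pi.add_apply]
      ring
    rw [this]
    exact norm_add_le _ _

/-- truncation -/
noncomputable def tr (n : ℕ) (F : ℝ × ℝ → ℂ) (y : ℝ × ℝ) : ℂ :=
  (Metric.closedBall (0 : ℝ × ℝ) n).indicator F y

theorem norm_tr_le (n : ℕ) (F : ℝ × ℝ → ℂ) (y : ℝ × ℝ) : ‖tr n F y‖ ≤ ‖F y‖ :=
  norm_indicator_le_norm_self _ _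

theorem nice_tr (n : ℕ) {F : ℝ × ℝ → ℂ} (hm : Measurable F) {B : ℝ} (hB : ∀ y, ‖F y‖ ≤ B) :
    T9h19.LS.Nice volume (tr n F) := by
  refine ⟨hm.indicator Metric.isClosed_closedBall.measurableSet, ?_, B,
    fun y => (norm_tr_le n F y).trans (hB y)⟩
  unfold tr
  rw [integrable_indicator_iff Metric.isClosed_closedBall.measurableSet]
  refine Measure.integrableOn_of_bounded (M := B) ?_ hm.aestronglyMeasurable
    (Filter.Eventually.of_forall hB)
  exact (isCompact_closedBall _ _).measure_lt_top.ne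

theorem tr_tendsto (F : ℝ × ℝ → ℂ) (y : ℝ × ℝ) :
    Filter.Tendsto (fun n : ℕ => tr n F y) Filter.atTop (nhds (F y)) := by
  refine tendsto_const_nhds.congr' ?_
  obtain ⟨N, hN⟩ := exists_nat_ge ‖y‖
  filter_upwards [Filter.eventually_ge_atTop N] with n hn
  unfold tr
  rw [Set.indicator_of_mem]
  rw [mem_closedBall_zero_iff]
  exact hN.trans (by exact_mod_cast hn)

theorem Tj_tr (k : ℕ) (j : ℤ) {F : ℝ × ℝ → ℂ} (hm : Measurable F) {B : ℝ}
    (hB : ∀ y, ‖F y‖ ≤ B) (z : ℝ × ℝ) :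
    Filter.Tendsto (fun n : ℕ => Tj k j (tr n F) z) Filter.atTop (nhds (Tj k j F z)) := by
  have hi := Ext_integrable (test_mm (pow_pos' k) j)
  unfold Tj
  refine tendsto_integral_of_dominated_convergence
    (fun y' => ‖T9h44.LG.Ext (mm (2 ^ k) j) (z - y')‖ * B) (fun n => ?_)
    ((hi.comp_sub_left z).norm.mul_const B) (fun n => Filter.Eventually.of_forall fun y => ?_)
    (Filter.Eventually.of_forall fun y => ?_)
  · exact (Tj_int k j (nice_tr n hm hB).1 (fun y => (norm_tr_le n F y).trans (hB y))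
      z).aestronglyMeasurable
  · rw [norm_mul]
    exact mul_le_mul_of_nonneg_left ((norm_tr_le n F y).trans (hB y)) (norm_nonneg _)
  · exact (tr_tendsto F y).const_mul _

theorem Tj_four' (k : ℕ) (J : Finset ℤ) {F : ℝ × ℝ → ℂ} (hm : Measurable F) {B : ℝ}
    (hB : ∀ y, ‖F y‖ ≤ B) (hmT : ∀ j, Measurable (Tj k j F)) :
    ∑ j ∈ J, ∫⁻ z, ‖Tj k j F z‖ₑ ^ 4 ≤ ENNReal.ofReal c4 * ∫⁻ y, ‖F y‖ₑ ^ 4 := by
  rw [← lintegral_finsetSum _ (fun j _ => (hmT j).enorm.pow_const 4)]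
  have h1 : ∀ z, ∑ j ∈ J, ‖Tj k j F z‖ₑ ^ 4 =
      Filter.liminf (fun n : ℕ => ∑ j ∈ J, ‖Tj k j (tr n F) z‖ₑ ^ 4) Filter.atTop := by
    intro z
    symm
    refine Filter.Tendsto.liminf_eq (tendsto_finsetSum _ fun j _ => ?_)
    exact ENNReal.Tendsto.pow (Tj_tr k j hm hB z).enorm
  calc ∫⁻ z, ∑ j ∈ J, ‖Tj k j F z‖ₑ ^ 4
      = ∫⁻ z, Filter.liminf (fun n : ℕ => ∑ j ∈ J, ‖Tj k j (tr n F) z‖ₑ ^ 4) Filter.atTop :=
        lintegral_congr h1
    _ ≤ Filter.liminf (fun n : ℕ => ∫⁻ z, ∑ j ∈ J, ‖Tj k j (tr n F) z‖ₑ ^ 4) Filter.atTop := by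
        refine lintegral_liminf_le fun n => ?_
        refine Finset.measurable_fun_sum _ fun j _ => ?_
        exact (Tj_meas k j (nice_tr n hm hB).2.1).measurable.enorm.pow_const 4
    _ ≤ Filter.liminf (fun _ : ℕ => ENNReal.ofReal c4 * ∫⁻ y, ‖F y‖ₑ ^ 4) Filter.atTop := by
        refine Filter.liminf_le_liminf (Filter.Eventually.of_forall fun n => ?_)
        rw [lintegral_finsetSum _ (fun j _ =>
          (Tj_meas k j (nice_tr n hm hB).2.1).measurable.enorm.pow_const 4)]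
        refine (Tj_four k J (nice_tr n hm hB)).trans (mul_le_mul' le_rfl ?_)
        refine lintegral_mono fun y => pow_le_pow_left' ?_ 4
        rw [← ofReal_norm, ← ofReal_norm]
        exact ENNReal.ofReal_le_ofReal (norm_tr_le n F y)
    _ = _ := Filter.liminf_const _

theorem s_s4 : S_s4 := by
  refine ⟨c4, c4_pos, ?_⟩
  intro k J G hG h1
  have hF : Continuous (T9h44.LG.Ext G) := continuous_Ext hG
  have h2 : ∀ j : ℤ, Gw k j G = fun ζ => mm (2 ^ k) (j : ℝ) ζ * G ζ := by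
    intro j
    funext ζ
    unfold Gw mm
    by_cases h0 : G ζ = 0
    · rw [h0, mul_zero, mul_zero]
    · obtain ⟨h3, h4⟩ := h1 ζ h0
      rw [bw_one h3 h4, one_mul]
      rfl
  have h3 : ∀ (j : ℤ) z, T9h44.LG.Ext (Gw k j G) z = Tj k j (T9h44.LG.Ext G) z := by
    intro j z
    rw [h2 j]
    exact Ext_mul (test_mm (pow_pos' k) j) hG z
  have h4 : ∀ j, Measurable (Tj k j (T9h44.LG.Ext G)) := by
    intro j
    have h5 : Tj k j (T9h44.LG.Ext G) = T9h44.LG.Ext (fun ζ => mm (2 ^ k) (j : ℝ) ζ * G ζ) := by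
      funext z
      rw [← h3, h2]
    rw [h5]
    refine (continuous_Ext ?_).measurable
    obtain ⟨hm, ⟨B, hB⟩, R, hR⟩ := hG
    refine ⟨(test_mm (pow_pos' k) (j : ℝ)).cont.measurable.mul hm, ⟨B, fun ζ => ?_⟩, R,
      fun ζ hζ => hR ζ (right_ne_zero_of_mul hζ)⟩
    rw [norm_mul]
    have := norm_mm_le (2 ^ k) (j : ℝ) ζ
    have h6 := norm_nonneg (G ζ)
    nlinarith [hB ζ]
  have h5 := Tj_four' k J hF.measurable (B := ∫ ζ, ‖G ζ‖) (fun y => norm_Ext_le y) h4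
  simp only [h3]
  exact h5

end Pool.Agent.T9h69.LG
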