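import Pool.Agent.T9h44.LG.Spec
import Pool.Agent.T9h31.LG.Wl
import Pool.Agent.T9h69.LG.S4

/-!
`L⁴` bound of a multiplier by interpolation between `L²` and `L^∞` (for helper44, MP_ee74d2_an).

Author: helper69.
-/

set_option autoImplicit false

namespace Pool.Agent.T9h69.LG

open MeasureTheory Real Pool.Agent.T9h44.LG Pool.Agent.T9h31.LG
open scoped ENNReal ComplexConjugate

/-- the operator -/
noncomputable def Tm (μ F : ℝ × ℝ → ℂ) (z : ℝ × ℝ) : ℂ :=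
  ∫ y' : ℝ × ℝ, T9h44.LG.Ext μ (z - y') * F y'

theorem Tm_sup {μ : ℝ × ℝ → ℂ} (hμ : Test μ) {A : ℝ} (hA : ∫ z : ℝ × ℝ, ‖T9h44.LG.Ext μ z‖ ≤ A)
    {F : ℝ × ℝ → ℂ} {B : ℝ} (hB : ∀ y, ‖F y‖ ≤ B) (z : ℝ × ℝ) : ‖Tm μ F z‖ ≤ A * B := by
  have hB0 : 0 ≤ B := (norm_nonneg _).trans (hB 0)
  have hi := Ext_integrable hμ
  have h1 : ‖Tm μ F z‖ ≤ ∫ y' : ℝ × ℝ, ‖T9h44.LG.Ext μ (z - y')‖ * B := by
    refine norm_integral_le_of_norm_le ?_ (Filter.Eventually.of_forall fun y' => ?_)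
    · exact (hi.comp_sub_left z).norm.mul_const B
    · rw [norm_mul]
      exact mul_le_mul_of_nonneg_left (hB y') (norm_nonneg _)
  rw [integral_mul_const, integral_sub_left_eq_self
    (fun y => ‖T9h44.LG.Ext μ y‖) volume z] at h1
  exact h1.trans (mul_le_mul_of_nonneg_right hA hB0)

theorem Tm_two {μ : ℝ × ℝ → ℂ} (hμ : Test μ) (hμ1 : ∀ ζ, ‖μ ζ‖ ≤ 1) {F : ℝ × ℝ → ℂ}
    (hF : T9h19.LS.Nice volume F) :
    ∫⁻ z, ‖Tm μ F z‖ₑ ^ (2 : ℝ) ≤ ∫⁻ y, ‖F y‖ₑ ^ (2 : ℝ) := by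
  simp only [ENNReal.rpow_ofNat]
  have h2 : ∀ z, Tm μ F z = T9h44.LG.Ext (fun ζ => μ ζ * ftr F ζ) z := fun z =>
    conv_eq hμ hF.2.1 z
  simp only [h2]
  rw [planch_Ext (nice_mul hμ hF.2.1)]
  refine le_trans (lintegral_mono fun ζ => ?_) (le_of_eq (planch2' F hF.2.1 (memLp_two_of hF)))
  rw [enorm_mul, mul_pow]
  have h3 : ‖μ ζ‖ₑ ^ 2 ≤ 1 := by
    refine pow_le_one' ?_ 2
    rw [← ofReal_norm]
    exact ENNReal.ofReal_le_one.mpr (hμ1 ζ)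
  calc ‖μ ζ‖ₑ ^ 2 * ‖ftr F ζ‖ₑ ^ 2 ≤ 1 * ‖ftr F ζ‖ₑ ^ 2 := mul_le_mul' h3 le_rfl
    _ = _ := one_mul _

theorem Tm_cont {μ : ℝ × ℝ → ℂ} (hμ : Test μ) {F : ℝ × ℝ → ℂ} (hF : Integrable F) :
    Continuous (Tm μ F) := by
  have h2 : Tm μ F = T9h44.LG.Ext (fun ζ => μ ζ * ftr F ζ) :=
    funext fun z => conv_eq hμ hF z
  rw [h2]
  exact continuous_Ext (nice_mul hμ hF)

theorem Tm_int {μ : ℝ × ℝ → ℂ} (hμ : Test μ) {F : ℝ × ℝ → ℂ} (hm : Measurable F) {B : ℝ}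
    (hB : ∀ y, ‖F y‖ ≤ B) (z : ℝ × ℝ) :
    Integrable fun y' : ℝ × ℝ => T9h44.LG.Ext μ (z - y') * F y' := by
  have hi := Ext_integrable hμ
  refine ((hi.comp_sub_left z).norm.mul_const B).mono' ?_
    (Filter.Eventually.of_forall fun y' => ?_)
  · exact ((continuous_Ext hμ.nice).comp
      (by fun_prop)).aestronglyMeasurable.mul hm.aestronglyMeasurable
  · rw [norm_mul]
    exact mul_le_mul_of_nonneg_left (hB y') (norm_nonneg _)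

theorem Tm_four {μ : ℝ × ℝ → ℂ} (hμ : Test μ) (hμ1 : ∀ ζ, ‖μ ζ‖ ≤ 1) {A : ℝ} (hA0 : 0 < A)
    (hA : ∫ z : ℝ × ℝ, ‖T9h44.LG.Ext μ z‖ ≤ A) {F : ℝ × ℝ → ℂ} (hF : T9h19.LS.Nice volume F) :
    ∫⁻ z, ‖Tm μ F z‖ₑ ^ 4 ≤ ENNReal.ofReal (32 * A ^ 2) * ∫⁻ y, ‖F y‖ₑ ^ 4 := by
  have h := interp_sum (μ := (volume : Measure (ℝ × ℝ))) (ν := (volume : Measure (ℝ × ℝ)))
    (p := 4) (by norm_num) ({()} : Finset Unit) (fun _ => Tm μ) (A2 := 1) hA0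
    (fun j F hF => (Tm_cont hμ hF.2.1).aestronglyMeasurable)
    (fun F hF => by
      rw [Finset.sum_singleton, one_mul]
      exact Tm_two hμ hμ1 hF)
    (fun j F hF B hB => Filter.Eventually.of_forall fun z => Tm_sup hμ hA hB z)
    (fun j F G hF hG => Filter.Eventually.of_forall fun z => ?_) hF
  · rw [Finset.sum_singleton] at h
    simp only [ENNReal.rpow_ofNat] at h
    refine h.trans (le_of_eq ?_)
    congr 1
    have e1 : (1 / (2 * A)) ^ ((2 : ℝ) - 4) = (2 * A) ^ 2 := by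
      rw [one_div, Real.inv_rpow (by positivity), ← Real.rpow_neg (by positivity)]
      norm_num
    rw [e1, show (4 : ℝ≥0∞) = ENNReal.ofReal 4 by simp, mul_one,
      ← ENNReal.ofReal_mul (by norm_num), ← ENNReal.ofReal_mul (by norm_num)]
    congr 1
    ring
  · obtain ⟨hFm, _, B, hB⟩ := hF
    obtain ⟨hGm, _, B', hB'⟩ := hG
    have : Tm μ (F + G) z = Tm μ F z + Tm μ G z := by
      unfold Tm
      rw [← integral_add (Tm_int hμ hFm hB z) (Tm_int hμ hGm hB' z)]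
      refine integral_congr_ae (Filter.Eventually.of_forall fun y => ?_)
      simp only [Pi.add_apply]
      ring
    rw [this]
    exact norm_add_le _ _

theorem Tm_tr {μ : ℝ × ℝ → ℂ} (hμ : Test μ) {F : ℝ × ℝ → ℂ} (hm : Measurable F) {B : ℝ}
    (hB : ∀ y, ‖F y‖ ≤ B) (z : ℝ × ℝ) :
    Filter.Tendsto (fun n : ℕ => Tm μ (tr n F) z) Filter.atTop (nhds (Tm μ F z)) := by
  have hi := Ext_integrable hμ
  unfold Tm
  refine tendsto_integral_of_dominated_convergence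
    (fun y' => ‖T9h44.LG.Ext μ (z - y')‖ * B) (fun n => ?_)
    ((hi.comp_sub_left z).norm.mul_const B) (fun n => Filter.Eventually.of_forall fun y => ?_)
    (Filter.Eventually.of_forall fun y => ?_)
  · exact (Tm_int hμ (nice_tr n hm hB).1 (fun y => (norm_tr_le n F y).trans (hB y))
      z).aestronglyMeasurable
  · rw [norm_mul]
    exact mul_le_mul_of_nonneg_left ((norm_tr_le n F y).trans (hB y)) (norm_nonneg _)
  · exact (tr_tendsto F y).const_mul _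

/-- the multiplier bound: `‖Ext (μ G)‖_4^4 ≤ 32 A² ‖Ext G‖_4^4` if `|μ| ≤ 1` and the kernel of `μ`
has the `L¹` norm at most `A` -/
theorem mult_four {μ : ℝ × ℝ → ℂ} (hμ : Test μ) (hμ1 : ∀ ζ, ‖μ ζ‖ ≤ 1) {A : ℝ} (hA0 : 0 < A)
    (hA : ∫ z : ℝ × ℝ, ‖T9h44.LG.Ext μ z‖ ≤ A) {G : ℝ × ℝ → ℂ} (hG : Nice G) :
    ∫⁻ z, ‖T9h44.LG.Ext (fun ζ => μ ζ * G ζ) z‖ₑ ^ 4 ≤
      ENNReal.ofReal (32 * A ^ 2) * ∫⁻ y, ‖T9h44.LG.Ext G y‖ₑ ^ 4 := by
  set F : ℝ × ℝ → ℂ := T9h44.LG.Ext G with hFdef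
  have hm : Measurable F := (continuous_Ext hG).measurable
  have hB : ∀ y, ‖F y‖ ≤ ∫ ζ, ‖G ζ‖ := fun y => norm_Ext_le y
  have h0 : ∀ z, T9h44.LG.Ext (fun ζ => μ ζ * G ζ) z = Tm μ F z := fun z => Ext_mul hμ hG z
  simp only [h0]
  have h1 : ∀ z, ‖Tm μ F z‖ₑ ^ 4 =
      Filter.liminf (fun n : ℕ => ‖Tm μ (tr n F) z‖ₑ ^ 4) Filter.atTop := by
    intro z
    symm
    exact Filter.Tendsto.liminf_eq (ENNReal.Tendsto.pow (Tm_tr hμ hm hB z).enorm)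
  calc ∫⁻ z, ‖Tm μ F z‖ₑ ^ 4
      = ∫⁻ z, Filter.liminf (fun n : ℕ => ‖Tm μ (tr n F) z‖ₑ ^ 4) Filter.atTop :=
        lintegral_congr h1
    _ ≤ Filter.liminf (fun n : ℕ => ∫⁻ z, ‖Tm μ (tr n F) z‖ₑ ^ 4) Filter.atTop := by
        refine lintegral_liminf_le fun n => ?_
        exact (Tm_cont hμ (nice_tr n hm hB).2.1).measurable.enorm.pow_const 4
    _ ≤ Filter.liminf (fun _ : ℕ => ENNReal.ofReal (32 * A ^ 2) * ∫⁻ y, ‖F y‖ₑ ^ 4)
          Filter.atTop := by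
        refine Filter.liminf_le_liminf (Filter.Eventually.of_forall fun n => ?_)
        refine (Tm_four hμ hμ1 hA0 hA (nice_tr n hm hB)).trans (mul_le_mul' le_rfl ?_)
        refine lintegral_mono fun y => pow_le_pow_left' ?_ 4
        rw [← ofReal_norm, ← ofReal_norm]
        exact ENNReal.ofReal_le_ofReal (norm_tr_le n F y)
    _ = _ := Filter.liminf_const _

end Pool.Agent.T9h69.LG
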