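import Pool.Agent.T9h44.LG.Spec4
import Pool.Agent.T9h31.LG.Gen
import Pool.Agent.T9h69.LG.M4
import Pool.Agent.T9h69.LG.Kc

/-!
Piece (FX) for helper44 (MP_ee74d2_an): the sharp `L⁴` estimate at a fixed time.

Author: helper69.
-/

set_option autoImplicit false

namespace Pool.Agent.T9h69.LG

open MeasureTheory Real Pool.Agent.T9h44.LG Pool.Agent.T9h31.LG
open scoped ENNReal ComplexConjugate ContDiff

/-- the bump in `w`: `1` on `[1, 4]`, `0` off `[1/2, 5]` -/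
noncomputable def b4 (w : ℝ) : ℂ :=
  ((Real.smoothTransition (2 * w - 1) * Real.smoothTransition (5 - w) : ℝ) : ℂ)

/-- the bump in `ξ`: `1` on `[-1, 1]`, `0` off `[-2, 2]` -/
noncomputable def b1 (x : ℝ) : ℂ :=
  ((Real.smoothTransition (2 - x) * Real.smoothTransition (2 + x) : ℝ) : ℂ)

theorem sw_b4 : SW b4 := by
  refine ⟨⟨?_, ?_⟩, fun w hw => ?_⟩
  · unfold b4
    have h1 : ContDiff ℝ (⊤ : ℕ∞) fun w : ℝ => 2 * w - 1 := by fun_prop
    have h2 : ContDiff ℝ (⊤ : ℕ∞) fun w : ℝ => 5 - w := by fun_prop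
    exact Complex.ofRealCLM.contDiff.comp
      ((Real.smoothTransition.contDiff.comp h1).mul (Real.smoothTransition.contDiff.comp h2))
  · refine HasCompactSupport.intro (K := Set.Icc 0 5) isCompact_Icc ?_
    intro w hw
    unfold b4
    by_cases h : w < 0
    · rw [Real.smoothTransition.zero_of_nonpos (by linarith), zero_mul, Complex.ofReal_zero]
    · have h2 : 5 < w := by
        by_contra h3
        exact hw ⟨by linarith, by linarith⟩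
      rw [Real.smoothTransition.zero_of_nonpos (x := 5 - w) (by linarith), mul_zero,
        Complex.ofReal_zero]
  · unfold b4
    rw [Real.smoothTransition.zero_of_nonpos (by linarith), zero_mul, Complex.ofReal_zero]

theorem sf_b1 : SF b1 := by
  refine ⟨?_, ?_⟩
  · unfold b1
    have h1 : ContDiff ℝ (⊤ : ℕ∞) fun w : ℝ => 2 - w := by fun_prop
    have h2 : ContDiff ℝ (⊤ : ℕ∞) fun w : ℝ => 2 + w := by fun_prop
    exact Complex.ofRealCLM.contDiff.comp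
      ((Real.smoothTransition.contDiff.comp h1).mul (Real.smoothTransition.contDiff.comp h2))
  · refine HasCompactSupport.intro (K := Set.Icc (-2) 2) isCompact_Icc ?_
    intro w hw
    unfold b1
    by_cases h : w < -2
    · rw [Real.smoothTransition.zero_of_nonpos (x := 2 + w) (by linarith), mul_zero,
        Complex.ofReal_zero]
    · have h2 : 2 < w := by
        by_contra h3
        exact hw ⟨by linarith, by linarith⟩
      rw [Real.smoothTransition.zero_of_nonpos (x := 2 - w) (by linarith), zero_mul,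
        Complex.ofReal_zero]

theorem b4_one {w : ℝ} (h1 : 1 ≤ w) (h2 : w ≤ 4) : b4 w = 1 := by
  unfold b4
  rw [Real.smoothTransition.one_of_one_le (by linarith),
    Real.smoothTransition.one_of_one_le (by linarith), one_mul, Complex.ofReal_one]

theorem b1_one {x : ℝ} (h : |x| ≤ 1) : b1 x = 1 := by
  obtain ⟨h1, h2⟩ := abs_le.1 h
  unfold b1
  rw [Real.smoothTransition.one_of_one_le (by linarith),
    Real.smoothTransition.one_of_one_le (by linarith), one_mul, Complex.ofReal_one]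

theorem norm_b4 (w : ℝ) : ‖b4 w‖ ≤ 1 := by
  unfold b4
  rw [Complex.norm_real, Real.norm_of_nonneg (mul_nonneg (Real.smoothTransition.nonneg _)
    (Real.smoothTransition.nonneg _))]
  exact mul_le_one₀ (Real.smoothTransition.le_one _) (Real.smoothTransition.nonneg _)
    (Real.smoothTransition.le_one _)

theorem norm_b1 (w : ℝ) : ‖b1 w‖ ≤ 1 := by
  unfold b1
  rw [Complex.norm_real, Real.norm_of_nonneg (mul_nonneg (Real.smoothTransition.nonneg _)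
    (Real.smoothTransition.nonneg _))]
  exact mul_le_one₀ (Real.smoothTransition.le_one _) (Real.smoothTransition.nonneg _)
    (Real.smoothTransition.le_one _)

theorem nice_Uo' (γ : ℝ) {G : ℝ × ℝ → ℂ} (hG : Nice G) : Nice (Uo γ G) := by
  obtain ⟨hm, ⟨B, hB⟩, r, hr⟩ := hG
  refine ⟨?_, ⟨B, fun ζ => ?_⟩, r, fun ζ hζ => hr ζ (right_ne_zero_of_mul hζ)⟩
  · unfold Uo qq
    exact (measurable_ee.comp (by fun_prop)).mul hm
  · unfold Uo
    rw [norm_mul, norm_ee, one_mul]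
    exact hB ζ

theorem Uo_add (γ γ' : ℝ) (G : ℝ × ℝ → ℂ) : Uo γ (Uo γ' G) = Uo (γ + γ') G := by
  funext ζ
  unfold Uo
  rw [← mul_assoc, ← ee_add, ← add_mul]

theorem Uo_supp {γ : ℝ} {G : ℝ × ℝ → ℂ} {ζ : ℝ × ℝ} (h : Uo γ G ζ ≠ 0) : G ζ ≠ 0 :=
  right_ne_zero_of_mul h

/-- normalised frequencies, `|γ| ≥ 1` -/
theorem fx_one : ∃ C : ℝ, 0 < C ∧ ∀ γ : ℝ, 1 ≤ |γ| → ∀ G : ℝ × ℝ → ℂ, Nice G →
    (∀ ζ, G ζ ≠ 0 → 1 ≤ ζ.1 ∧ ζ.1 ≤ 4 ∧ |ζ.2| ≤ 1) →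
    I4 (Uo γ G) ≤ ENNReal.ofReal (C * |γ|) * I4 G := by
  obtain ⟨C, hC0, hC⟩ := L1_XX sw_b4 sf_b1
  refine ⟨32 * C, by positivity, fun γ hγ G hG hs => ?_⟩
  have hγ0 : 0 < |γ| := by linarith
  have h1 : Uo γ G = fun ζ => XX γ b4 b1 ζ * G ζ := by
    funext ζ
    by_cases h0 : G ζ = 0
    · unfold Uo
      rw [h0, mul_zero, mul_zero]
    · obtain ⟨h2, h3, h4⟩ := hs ζ h0
      unfold Uo XX
      rw [b4_one h2 h3, b1_one h4, mul_one, mul_one]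
  have h2 := mult_four (test_XX γ sw_b4 sf_b1) (fun ζ => by
    rw [norm_XX]
    exact mul_le_one₀ (norm_b4 _) (norm_nonneg _) (norm_b1 _))
    (Real.sqrt_pos.2 (by positivity : 0 < C * |γ|)) (hC γ hγ) hG
  unfold I4
  rw [h1]
  refine h2.trans (le_of_eq ?_)
  rw [Real.sq_sqrt (by positivity), mul_assoc]

/-- normalised frequencies, all times -/
theorem fx_all : ∃ C : ℝ, 0 < C ∧ ∀ γ : ℝ, ∀ G : ℝ × ℝ → ℂ, Nice G →
    (∀ ζ, G ζ ≠ 0 → 1 ≤ ζ.1 ∧ ζ.1 ≤ 4 ∧ |ζ.2| ≤ 1) →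
    I4 (Uo γ G) ≤ ENNReal.ofReal (C * (1 + |γ|)) * I4 G := by
  obtain ⟨C, hC0, hC⟩ := fx_one
  refine ⟨C + 6 * C ^ 2, by positivity, fun γ G hG hs => ?_⟩
  by_cases hγ : 1 ≤ |γ|
  · refine (hC γ hγ G hG hs).trans (mul_le_mul' (ENNReal.ofReal_le_ofReal ?_) le_rfl)
    have := sq_nonneg C
    nlinarith
  · push Not at hγ
    have h1 := abs_lt.1 hγ
    have h2 : Uo γ G = Uo (γ + 2) (Uo (-2) G) := by
      rw [Uo_add]; congr 1; ring
    have h3 : |γ + 2| = γ + 2 := abs_of_pos (by linarith)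
    have h4 := hC (γ + 2) (by rw [h3]; linarith) (Uo (-2) G) (nice_Uo' _ hG)
      (fun ζ hζ => hs ζ (Uo_supp hζ))
    have h5 := hC (-2) (by norm_num) G hG hs
    rw [h2]
    refine h4.trans ((mul_le_mul' le_rfl h5).trans ?_)
    rw [← mul_assoc, ← ENNReal.ofReal_mul (by positivity)]
    refine mul_le_mul' (ENNReal.ofReal_le_ofReal ?_) le_rfl
    rw [h3]
    have e : |(-2 : ℝ)| = 2 := by norm_num
    rw [e]
    have h6 : 0 ≤ |γ| := abs_nonneg _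
    have h7 : C * (γ + 2) * (C * 2) ≤ 6 * C ^ 2 := by nlinarith [sq_nonneg C]
    nlinarith [sq_nonneg C]

theorem fr_Uo (s γ : ℝ) (G : ℝ × ℝ → ℂ) : fr 0 s (Uo γ G) = Uo (s ^ 2 * γ) (fr 0 s G) := by
  funext ζ
  simp only [fr, Uo, qq]
  congr 2
  ring

theorem s_fx : S_fx := by
  obtain ⟨C, hC0, hC⟩ := fx_all
  refine ⟨64 * C, 2, by positivity, by norm_num, ?_⟩
  intro s₀ A c hs₀ hA hc G hG hs
  have hw : ∀ ζ, G ζ ≠ 0 → ζ.1 ≠ 0 := fun ζ hζ => by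
    have := (hs ζ hζ).1
    linarith
  have hA0 : 0 < 4 * A := by linarith
  set G1 := sc s₀ 0 G with hG1
  have hn1 : Nice G1 := nice_sc hs₀ hG
  have hs1 : ∀ ζ, G1 ζ ≠ 0 → 1 ≤ ζ.1 ∧ ζ.1 ≤ 4 ∧ |ζ.2| ≤ 4 * A := by
    intro ζ hζ
    have h := hs _ hζ
    rw [lin_eq] at h
    simp only [zero_mul, zero_add] at h
    obtain ⟨h1, h2, h3⟩ := h
    have h4 : 1 ≤ ζ.1 := by
      by_contra hc'
      push Not at hc'
      nlinarith
    have h5 : ζ.1 ≤ 4 := by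
      by_contra hc'
      push Not at hc'
      nlinarith
    refine ⟨h4, h5, ?_⟩
    rw [abs_mul, abs_of_pos hs₀] at h3
    have h6 : |ζ.2| ≤ A * ζ.1 := by
      by_contra hc'
      push Not at hc'
      nlinarith
    nlinarith
  have h1 : I4 (Uo c G) = ENNReal.ofReal (s₀ ^ 6) * I4 (Uo (s₀ * c) G1) := I4_sc hs₀ c hG hw
  have h2 : I4 G = ENNReal.ofReal (s₀ ^ 6) * I4 G1 := by
    have := I4_sc (α := 0) hs₀ 0 hG hw
    rw [mul_zero, Uo_zero, Uo_zero] at this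
    exact this
  -- the scaling in ξ
  have hw1 : ∀ γ ζ, Uo γ G1 ζ ≠ 0 → 1 ≤ ζ.1 := fun γ ζ hζ => (hs1 ζ (Uo_supp hζ)).1
  have h3 := (s_fr 0 (4 * A) hA0 (Uo (s₀ * c) G1) (nice_Uo' _ hn1) (hw1 _)).2.2.2
  have h4 := (s_fr 0 (4 * A) hA0 G1 hn1 (fun ζ hζ => (hs1 ζ hζ).1)).2.2.2
  have hn2 := (s_fr 0 (4 * A) hA0 G1 hn1 (fun ζ hζ => (hs1 ζ hζ).1)).1
  rw [fr_Uo] at h3
  have hs2 : ∀ ζ, fr 0 (4 * A) G1 ζ ≠ 0 → 1 ≤ ζ.1 ∧ ζ.1 ≤ 4 ∧ |ζ.2| ≤ 1 := by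
    intro ζ hζ
    obtain ⟨h5, h6, h7⟩ := hs1 _ hζ
    simp only [mul_zero, zero_add] at h5 h6 h7
    refine ⟨h5, h6, ?_⟩
    rw [abs_mul, abs_of_pos hA0] at h7
    by_contra hc'
    push Not at hc'
    nlinarith
  have h5 := hC ((4 * A) ^ 2 * (s₀ * c)) (fr 0 (4 * A) G1) hn2 hs2
  have h6 : I4 (Uo (s₀ * c) G1) ≤
      ENNReal.ofReal (C * (1 + |(4 * A) ^ 2 * (s₀ * c)|)) * I4 G1 := by
    have e1 : I4 (Uo (s₀ * c) G1) = ENNReal.ofReal ((4 * A) ^ 3) *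
        I4 (Uo ((4 * A) ^ 2 * (s₀ * c)) (fr 0 (4 * A) G1)) := h3
    have e2 : I4 G1 = ENNReal.ofReal ((4 * A) ^ 3) * I4 (fr 0 (4 * A) G1) := h4
    rw [e1, e2]
    calc _ ≤ ENNReal.ofReal ((4 * A) ^ 3) *
          (ENNReal.ofReal (C * (1 + |(4 * A) ^ 2 * (s₀ * c)|)) * I4 (fr 0 (4 * A) G1)) :=
          mul_le_mul' le_rfl h5
      _ = _ := by ring
  change I4 (Uo c G) ≤ _ * I4 G
  rw [h1, h2]
  have hc4 : |c| ≤ 4 := abs_le.2 hc
  have h7 : C * (1 + |(4 * A) ^ 2 * (s₀ * c)|) ≤ 64 * C * (1 + s₀) * A ^ (2 : ℝ) := by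
    rw [Real.rpow_two, abs_mul, abs_mul, abs_of_pos hs₀, abs_of_pos (by positivity)]
    have h8 : 1 ≤ A ^ 2 := by nlinarith
    have h9 : (4 * A) ^ 2 * (s₀ * |c|) ≤ 64 * A ^ 2 * s₀ := by
      have : s₀ * |c| ≤ s₀ * 4 := mul_le_mul_of_nonneg_left hc4 hs₀.le
      nlinarith [sq_nonneg A]
    have h10 : 1 + (4 * A) ^ 2 * (s₀ * |c|) ≤ 64 * (1 + s₀) * A ^ 2 := by nlinarith
    calc C * (1 + (4 * A) ^ 2 * (s₀ * |c|)) ≤ C * (64 * (1 + s₀) * A ^ 2) :=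
          mul_le_mul_of_nonneg_left h10 hC0.le
      _ = _ := by ring
  calc ENNReal.ofReal (s₀ ^ 6) * I4 (Uo (s₀ * c) G1)
      ≤ ENNReal.ofReal (s₀ ^ 6) *
        (ENNReal.ofReal (64 * C * (1 + s₀) * A ^ (2 : ℝ)) * I4 G1) :=
        mul_le_mul' le_rfl (h6.trans (mul_le_mul' (ENNReal.ofReal_le_ofReal h7) le_rfl))
    _ = _ := by ring

end Pool.Agent.T9h69.LG
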