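import Pool.Agent.T9h44.LG.Spec2
import Pool.Agent.T9h82.LS.KHat

/-!
Piece (KH) for helper44 (MP_ee74d2_an): the Fourier transform of the kernel `KM`.

Author: helper69 (after `Pool.Agent.T9h82.LS.KHat` of helper82, the case `M = 0`).
-/

set_option autoImplicit false

namespace Pool.Agent.T9h69.LG.Kh

open MeasureTheory Real Pool.Agent.T9h44.LS4 Pool.Agent.T9h82.LS
open Filter Topology Set
open Pool.Agent.T9h44.LG (KM Pb ee S_kh)

variable {n : ℕ}

/-! ### The subordination formula with more powers of `s` -/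

/-- the integral -/
noncomputable def JM (r : ℝ) (M : ℕ) (τ : ℂ) : ℂ :=
  ∫ s in Ioi (0 : ℝ), ((s ^ ((M : ℝ) + 1 / 2 - 1) : ℝ) : ℂ) *
    Complex.exp (Complex.I * Real.pi * s * τ ^ 2) * Complex.exp (Complex.I * Real.pi * r ^ 2 / s)

/-- the value -/
noncomputable def VM (r : ℝ) (M : ℕ) (τ : ℂ) : ℂ :=
  Complex.exp (Complex.I * Real.pi / 4) * τ⁻¹ ^ (M + 1) * (r : ℂ) ^ M *
    Complex.exp (2 * Real.pi * Complex.I * r * τ) * (Pb M).eval (1 / (2 * π * Complex.I * r * τ))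

theorem norm_e1 (s : ℝ) (z : ℂ) :
    ‖Complex.exp (Complex.I * Real.pi * s * z ^ 2)‖ = Real.exp (-(π * (z ^ 2).im * s)) := by
  rw [Complex.norm_exp]
  congr 1
  have : Complex.I * Real.pi * s * z ^ 2 = ((π * s : ℝ) : ℂ) * (Complex.I * z ^ 2) := by
    push_cast; ring
  rw [this, Complex.re_ofReal_mul, Complex.mul_re, Complex.I_re, Complex.I_im]
  ring

theorem norm_e2 (r s : ℝ) : ‖Complex.exp (Complex.I * Real.pi * r ^ 2 / s)‖ = 1 := by
  have : Complex.I * Real.pi * r ^ 2 / s = ((π * r ^ 2 / s : ℝ) : ℂ) * Complex.I := by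
    push_cast; ring
  rw [this, Complex.norm_exp_ofReal_mul_I]

theorem norm_F (r : ℝ) (M : ℕ) (z : ℂ) {s : ℝ} (hs : 0 < s) :
    ‖((s ^ ((M : ℝ) + 1 / 2 - 1) : ℝ) : ℂ) * Complex.exp (Complex.I * Real.pi * s * z ^ 2) *
      Complex.exp (Complex.I * Real.pi * r ^ 2 / s)‖ =
      s ^ ((M : ℝ) + 1 / 2 - 1) * Real.exp (-(π * (z ^ 2).im * s)) := by
  rw [norm_mul, norm_mul, norm_e1, norm_e2, mul_one, Complex.norm_real,
    Real.norm_of_nonneg (Real.rpow_nonneg hs.le _)]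

theorem sq_im_pos {z : ℂ} (h1 : 0 < z.re) (h2 : 0 < z.im) : 0 < (z ^ 2).im := by
  have : (z ^ 2).im = 2 * (z.re * z.im) := by
    rw [sq, Complex.mul_im]; ring
  rw [this]
  positivity

theorem deriv_JM (r : ℝ) (M : ℕ) {τ : ℂ} (h1 : 0 < τ.re) (h2 : 0 < τ.im) :
    HasDerivAt (JM r M) (2 * π * Complex.I * τ * JM r (M + 1) τ) τ := by
  have him := sq_im_pos h1 h2
  set ε := (τ ^ 2).im / 2 with hε
  have hε0 : 0 < ε := by positivity
  have hnhd : {z : ℂ | ε < (z ^ 2).im ∧ ‖z‖ < ‖τ‖ + 1} ∈ 𝓝 τ := by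
    refine IsOpen.mem_nhds ?_ ⟨by linarith, by linarith⟩
    exact (isOpen_lt continuous_const (Complex.continuous_im.comp (continuous_pow 2))).inter
      (isOpen_lt continuous_norm continuous_const)
  have hb : IntegrableOn (fun s : ℝ => 2 * π * (‖τ‖ + 1) *
      (s ^ (((M : ℝ) + 1 + 1 / 2) - 1) * Real.exp (-(π * ε * s)))) (Ioi 0) :=
    (int_pow_exp (by positivity) (by positivity)).const_mul _
  have key := hasDerivAt_integral_of_dominated_loc_of_deriv_le (𝕜 := ℂ)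
    (μ := volume.restrict (Ioi (0 : ℝ)))
    (F := fun z s => ((s ^ ((M : ℝ) + 1 / 2 - 1) : ℝ) : ℂ) *
      Complex.exp (Complex.I * Real.pi * s * z ^ 2) * Complex.exp (Complex.I * Real.pi * r ^ 2 / s))
    (F' := fun z s => (2 * π * Complex.I * z * s) * (((s ^ ((M : ℝ) + 1 / 2 - 1) : ℝ) : ℂ) *
      Complex.exp (Complex.I * Real.pi * s * z ^ 2) *
        Complex.exp (Complex.I * Real.pi * r ^ 2 / s))) (x₀ := τ)
    (bound := fun s : ℝ => 2 * π * (‖τ‖ + 1) *
      (s ^ (((M : ℝ) + 1 + 1 / 2) - 1) * Real.exp (-(π * ε * s))))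
    hnhd (Eventually.of_forall fun z => by
      refine Measurable.aestronglyMeasurable ?_
      fun_prop) ?_ ?_ ?_ hb ?_
  · refine key.2.congr_deriv ?_
    unfold JM
    rw [← integral_const_mul]
    refine setIntegral_congr_fun measurableSet_Ioi fun s hs => ?_
    have hs0 : 0 < s := hs
    have e1 : s ^ (((M + 1 : ℕ) : ℝ) + 1 / 2 - 1) = s * s ^ ((M : ℝ) + 1 / 2 - 1) := by
      rw [show (((M + 1 : ℕ) : ℝ) + 1 / 2 - 1) = 1 + ((M : ℝ) + 1 / 2 - 1) by push_cast; ring,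
        Real.rpow_add hs0, Real.rpow_one]
    rw [e1, Complex.ofReal_mul]
    ring
  · have h3 : IntegrableOn (fun s : ℝ => s ^ (((M : ℝ) + 1 / 2) - 1) *
        Real.exp (-(π * (τ ^ 2).im * s))) (Ioi 0) := int_pow_exp (by positivity) (by positivity)
    refine Integrable.mono' h3 (Measurable.aestronglyMeasurable (by fun_prop)) ?_
    filter_upwards [ae_restrict_mem measurableSet_Ioi] with s hs
    exact (norm_F r M τ hs).le
  · refine Measurable.aestronglyMeasurable ?_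
    fun_prop
  · filter_upwards [ae_restrict_mem measurableSet_Ioi] with s hs z hz
    have hs0 : 0 < s := hs
    obtain ⟨hz1, hz2⟩ := hz
    rw [norm_mul, norm_F r M z hs0]
    have e2 : ‖2 * π * Complex.I * z * s‖ = 2 * π * ‖z‖ * s := by
      simp only [norm_mul, Complex.norm_ofNat, Complex.norm_real, Complex.norm_I, mul_one,
        Real.norm_eq_abs, abs_of_pos Real.pi_pos, abs_of_pos hs0]
    rw [e2]
    have e1 : s ^ (((M : ℝ) + 1 + 1 / 2) - 1) = s * s ^ ((M : ℝ) + 1 / 2 - 1) := by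
      rw [show ((M : ℝ) + 1 + 1 / 2 - 1) = 1 + ((M : ℝ) + 1 / 2 - 1) by ring,
        Real.rpow_add hs0, Real.rpow_one]
    rw [e1]
    have e3 : Real.exp (-(π * (z ^ 2).im * s)) ≤ Real.exp (-(π * ε * s)) := by
      apply Real.exp_le_exp.2
      have := mul_le_mul_of_nonneg_right hz1.le hs0.le
      have := Real.pi_pos
      nlinarith
    have e4 : 0 ≤ s ^ ((M : ℝ) + 1 / 2 - 1) := Real.rpow_nonneg hs0.le _
    calc 2 * π * ‖z‖ * s * (s ^ ((M : ℝ) + 1 / 2 - 1) * Real.exp (-(π * (z ^ 2).im * s)))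
        ≤ 2 * π * (‖τ‖ + 1) * s * (s ^ ((M : ℝ) + 1 / 2 - 1) * Real.exp (-(π * ε * s))) := by
          gcongr
      _ = _ := by ring
  · refine Eventually.of_forall fun s z _ => ?_
    have h3 : HasDerivAt (fun z : ℂ => Complex.I * Real.pi * s * z ^ 2)
        (2 * π * Complex.I * z * s) z := by
      have := (hasDerivAt_pow 2 z).const_mul (Complex.I * Real.pi * s)
      refine this.congr_deriv ?_
      push_cast
      ring
    have h4 := (h3.cexp.const_mul (((s ^ ((M : ℝ) + 1 / 2 - 1) : ℝ)) : ℂ)).mul_const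
      (Complex.exp (Complex.I * Real.pi * r ^ 2 / s))
    refine h4.congr_deriv ?_
    ring

theorem deriv_VM {r : ℝ} (hr : r ≠ 0) (M : ℕ) {τ : ℂ} (hτ : τ ≠ 0) :
    HasDerivAt (VM r M) (2 * π * Complex.I * τ * VM r (M + 1) τ) τ := by
  have hr' : (r : ℂ) ≠ 0 := Complex.ofReal_ne_zero.2 hr
  have hc : (2 * π * Complex.I * r : ℂ) ≠ 0 :=
    mul_ne_zero Complex.two_pi_I_ne_zero hr'
  set c : ℂ := 2 * π * Complex.I * r with hcdef
  have h1 : HasDerivAt (fun z : ℂ => z⁻¹ ^ (M + 1))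
      (((M + 1 : ℕ) : ℂ) * τ⁻¹ ^ M * (-(τ ^ 2)⁻¹)) τ := by
    have := (hasDerivAt_inv hτ).pow (M + 1)
    refine this.congr_deriv ?_
    simp only [Nat.add_sub_cancel]
  have h2 : HasDerivAt (fun z : ℂ => Complex.exp (c * z)) (Complex.exp (c * τ) * c) τ := by
    have := ((hasDerivAt_id τ).const_mul c).cexp
    refine this.congr_deriv ?_
    simp
  have h3 : HasDerivAt (fun z : ℂ => 1 / (c * z)) (-(c⁻¹ * (τ ^ 2)⁻¹)) τ := by
    have h4 : HasDerivAt (fun z : ℂ => c⁻¹ * z⁻¹) (c⁻¹ * (-(τ ^ 2)⁻¹)) τ :=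
      (hasDerivAt_inv hτ).const_mul c⁻¹
    have h5 : (fun z : ℂ => 1 / (c * z)) = fun z : ℂ => c⁻¹ * z⁻¹ := by
      funext z
      rw [one_div, mul_inv]
    rw [h5]
    refine h4.congr_deriv ?_
    ring
  have h4 : HasDerivAt (fun z : ℂ => (Pb M).eval (1 / (c * z)))
      ((Pb M).derivative.eval (1 / (c * τ)) * (-(c⁻¹ * (τ ^ 2)⁻¹))) τ :=
    HasDerivAt.comp (h₂ := fun x : ℂ => (Pb M).eval x) τ ((Pb M).hasDerivAt (1 / (c * τ))) h3
  have h5 := (((h1.const_mul (Complex.exp (Complex.I * Real.pi / 4))).mul_const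
    ((r : ℂ) ^ M)).mul h2).mul h4
  refine h5.congr_deriv ?_
  unfold VM
  rw [← hcdef]
  simp only [Pi.mul_apply, inv_pow, Pb, Polynomial.eval_sub, Polynomial.eval_mul, Polynomial.eval_pow, Polynomial.eval_X,
    Polynomial.eval_one, Polynomial.eval_smul, smul_eq_mul]
  generalize Complex.exp (Complex.I * Real.pi / 4) = A
  generalize Complex.exp (c * τ) = E
  generalize Polynomial.eval (1 / (c * τ)) (Pb M) = P
  generalize Polynomial.eval (1 / (c * τ)) (Polynomial.derivative (Pb M)) = P'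
  have h6 : 2 * π * Complex.I = c / r := by
    rw [hcdef]; field_simp
  rw [h6]
  push_cast
  field_simp
  ring

theorem JM_eq {r : ℝ} (hr : 0 < r) (M : ℕ) : ∀ τ : ℂ, 0 < τ.re → 0 < τ.im →
    JM r M τ = VM r M τ := by
  induction M with
  | zero =>
    intro τ h1 h2
    have h := cs r hr.le τ h1 h2
    unfold JM VM
    have e : ((0 : ℕ) : ℝ) + 1 / 2 - 1 = -(1 / 2) := by norm_num
    rw [e, h]
    simp only [Pb, Polynomial.eval_one, pow_zero, zero_add, pow_one, mul_one]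
    rw [div_eq_mul_inv]
  | succ M ih =>
    intro τ h1 h2
    have hτ : τ ≠ 0 := by
      rintro rfl
      simp at h1
    have hnhd : ∀ᶠ z in 𝓝 τ, 0 < z.re ∧ 0 < z.im := by
      refine IsOpen.mem_nhds ?_ ⟨h1, h2⟩
      exact (isOpen_lt continuous_const Complex.continuous_re).inter
        (isOpen_lt continuous_const Complex.continuous_im)
    have heq : JM r M =ᶠ[𝓝 τ] VM r M := by
      filter_upwards [hnhd] with z hz
      exact ih z hz.1 hz.2
    have h3 := (deriv_JM r M h1 h2)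
    have h4 := (deriv_VM hr.ne' M hτ).congr_of_eventuallyEq heq
    have h5 := h3.unique h4
    have h6 : 2 * (π : ℂ) * Complex.I * τ ≠ 0 := mul_ne_zero Complex.two_pi_I_ne_zero hτ
    exact mul_left_cancel₀ h6 h5

/-! ### The kernel -/

theorem KM_eq (M : ℕ) {y : ℝ} (hy : 0 < y) (w : ℝ) (g z : Fin n → ℝ) :
    KM M n y w g z = (Real.Gamma (((n : ℝ) + 1) / 2 + M) : ℂ) *
      rate y w g z ^ (-((((n : ℝ) + 1) / 2 + M : ℝ) : ℂ)) := by
  have hre : 0 < (rate y w g z).re := by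
    unfold rate
    simp only [Complex.add_re, Complex.ofReal_re, Complex.re_ofReal_mul, Complex.I_re, mul_zero,
      add_zero]
    positivity
  rw [← gamma_int _ (by positivity) _ hre]
  unfold Pool.Agent.T9h44.LG.KM os
  refine setIntegral_congr_fun measurableSet_Ioi fun s _ => ?_
  rw [show ((n : ℝ) + 1) / 2 + (M : ℝ) - 1 = ((n : ℝ) - 1) / 2 + M by ring]
  rw [Complex.ofReal_mul, mul_assoc, Complex.ofReal_exp, ← Complex.exp_add]
  congr 2
  unfold rate
  push_cast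
  ring

theorem norm_KM (M : ℕ) {y : ℝ} (hy : 0 < y) (w : ℝ) (g z : Fin n → ℝ) :
    ‖KM M n y w g z‖ = Real.Gamma (((n : ℝ) + 1) / 2 + M) /
      ‖rate y w g z‖ ^ (((n : ℝ) + 1) / 2 + M) := by
  rw [KM_eq M hy, norm_mul, Complex.norm_real, Real.norm_of_nonneg (by positivity),
    ← Complex.ofReal_neg, Complex.norm_cpow_real, Real.rpow_neg (norm_nonneg _)]
  rfl

theorem measurable_KM (M : ℕ) {y : ℝ} (hy : 0 < y) (w : ℝ) (g : Fin n → ℝ) :
    Measurable (KM M n y w g) := by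
  have h : KM M n y w g = fun z => (Real.Gamma (((n : ℝ) + 1) / 2 + M) : ℂ) *
      rate y w g z ^ (-((((n : ℝ) + 1) / 2 + M : ℝ) : ℂ)) := funext fun z => KM_eq M hy w g z
  rw [h]
  have hq : Measurable fun z : Fin n → ℝ => q g z := by
    unfold q
    fun_prop
  unfold rate
  fun_prop

theorem rate_norm_ge' {y : ℝ} (hy : 0 < y) (w : ℝ) (g z : Fin n → ℝ) : y ≤ ‖rate y w g z‖ := by
  have h := Complex.abs_re_le_norm (rate y w g z)
  have e : (rate y w g z).re = 2 * π * y := by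
    unfold rate
    simp only [Complex.add_re, Complex.ofReal_re, Complex.re_ofReal_mul, Complex.I_re, mul_zero,
      add_zero]
  rw [e, abs_of_pos (by positivity)] at h
  nlinarith [Real.pi_gt_three]

theorem integrable_KM (M : ℕ) (hn : 1 ≤ n) {y : ℝ} (hy : 0 < y) (w : ℝ) {g : Fin n → ℝ}
    (hg : ∀ i, 0 < g i) : Integrable (KM M n y w g) := by
  have h1 := (integrable_Ker hn hy w hg).norm.const_mul
    (Real.Gamma (((n : ℝ) + 1) / 2 + M) / Real.Gamma (((n : ℝ) + 1) / 2) / y ^ M)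
  refine h1.mono' (measurable_KM M hy w g).aestronglyMeasurable
    (Eventually.of_forall fun z => ?_)
  have h2 := rate_norm_ge' hy w g z
  have h3 : 0 < ‖rate y w g z‖ := lt_of_lt_of_le hy h2
  rw [norm_KM M hy, norm_Ker hy]
  change _ ≤ _ * (Real.Gamma (((n : ℝ) + 1) / 2) / ‖rate y w g z‖ ^ (((n : ℝ) + 1) / 2))
  have hG : 0 < Real.Gamma (((n : ℝ) + 1) / 2) := Real.Gamma_pos_of_pos (by positivity)
  have hG' : 0 < Real.Gamma (((n : ℝ) + 1) / 2 + M) := Real.Gamma_pos_of_pos (by positivity)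
  have hp : 0 < ‖rate y w g z‖ ^ (((n : ℝ) + 1) / 2) := Real.rpow_pos_of_pos h3 _
  rw [Real.rpow_add h3, Real.rpow_natCast]
  have h4 : y ^ M ≤ ‖rate y w g z‖ ^ M := pow_le_pow_left₀ hy.le h2 M
  have e : Real.Gamma (((n : ℝ) + 1) / 2 + M) / Real.Gamma (((n : ℝ) + 1) / 2) / y ^ M *
      (Real.Gamma (((n : ℝ) + 1) / 2) / ‖rate y w g z‖ ^ (((n : ℝ) + 1) / 2)) =
      Real.Gamma (((n : ℝ) + 1) / 2 + M) / (‖rate y w g z‖ ^ (((n : ℝ) + 1) / 2) * y ^ M) := by
    field_simp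
  rw [e]
  refine div_le_div_of_nonneg_left hG'.le (by positivity) ?_
  exact mul_le_mul_of_nonneg_left h4 hp.le

/-! ### Fubini -/

/-- the weight in the definition of the kernel -/
noncomputable def phM (M n : ℕ) (y s : ℝ) : ℝ :=
  s ^ (((n : ℝ) - 1) / 2 + M) * Real.exp (-(2 * π * s * y))

theorem phM_nonneg (M : ℕ) {y s : ℝ} (hs : 0 < s) : 0 ≤ phM M n y s := by
  unfold phM
  have := Real.rpow_nonneg hs.le (((n : ℝ) - 1) / 2 + M)
  positivity

theorem phM_int (M n : ℕ) {y : ℝ} (hy : 0 < y) : IntegrableOn (phM M n y) (Ioi 0) := by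
  have h := int_pow_exp (a := ((n : ℝ) + 1) / 2 + M) (ε := 2 * π * y) (by positivity)
    (by positivity)
  refine h.congr_fun ?_ measurableSet_Ioi
  intro s _
  unfold phM
  beta_reduce
  rw [show ((n : ℝ) + 1) / 2 + (M : ℝ) - 1 = ((n : ℝ) - 1) / 2 + M by ring,
    show 2 * π * y * s = 2 * π * s * y by ring]

theorem fubM (M : ℕ) {d y : ℝ} (hd : 0 < d) (hy : 0 < y) {g : Fin n → ℝ} (hg : ∀ i, 0 < g i)
    (w : ℝ) (ξ : Fin n → ℝ) :
    ∫ z : Fin n → ℝ, ch ξ z * ((Real.exp (-(π * d * q g z)) : ℝ) : ℂ) * KM M n y w g z =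
      ∫ s in Ioi (0 : ℝ), ((phM M n y s : ℝ) : ℂ) *
        (Complex.exp (((π * s * w : ℝ) : ℂ) * Complex.I) *
        ((((∏ i, g i) ^ (-(1 / 2) : ℝ) : ℝ) : ℂ) * ((bet d s)⁻¹ ^ (1 / 2 : ℂ)) ^ n *
          Complex.exp (-((π * (∑ i, ξ i ^ 2 / g i) : ℝ) * (bet d s)⁻¹)))) := by
  have h1 : ∀ z : Fin n → ℝ, ch ξ z * ((Real.exp (-(π * d * q g z)) : ℝ) : ℂ) * KM M n y w g z =
      ∫ s in Ioi (0 : ℝ), ((phM M n y s : ℝ) : ℂ) *
        (ch ξ z * ((Real.exp (-(π * d * q g z)) : ℝ) : ℂ) * os s (q g z - w)) := by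
    intro z
    unfold Pool.Agent.T9h44.LG.KM phM
    rw [← integral_const_mul]
    refine integral_congr_ae (Eventually.of_forall fun s => ?_)
    beta_reduce
    ring
  simp_rw [h1]
  rw [integral_integral_swap]
  · refine setIntegral_congr_fun measurableSet_Ioi fun s hs => ?_
    rw [integral_const_mul, gauss_n hd hs hg w ξ]
  · have hdom : Integrable (fun p : (Fin n → ℝ) × ℝ =>
          Real.exp (-(π * d * q g p.1)) * phM M n y p.2)
        ((volume : Measure (Fin n → ℝ)).prod (volume.restrict (Ioi (0 : ℝ)))) :=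
      (gauss_int hd hg).mul_prod (phM_int M n hy)
    have hq : Measurable fun z : Fin n → ℝ => q g z := by
      unfold q
      fun_prop
    refine Integrable.mono' hdom ?_ ?_
    · refine Measurable.aestronglyMeasurable ?_
      unfold Function.uncurry phM ch os
      fun_prop
    · have hmem : ∀ᵐ p : (Fin n → ℝ) × ℝ ∂((volume : Measure (Fin n → ℝ)).prod
          (volume.restrict (Ioi (0 : ℝ)))), p.2 ∈ Ioi (0 : ℝ) :=
        Measure.quasiMeasurePreserving_snd.ae (ae_restrict_mem measurableSet_Ioi)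
      filter_upwards [hmem] with p hp
      have hp' : 0 < p.2 := hp
      unfold Function.uncurry
      rw [norm_mul, norm_mul, norm_mul, norm_ch, T9h82.LS.norm_os, Complex.norm_real,
        Complex.norm_real,
        Real.norm_of_nonneg (phM_nonneg M hp'), Real.norm_of_nonneg (Real.exp_pos _).le]
      rw [one_mul, mul_one, mul_comm]

/-! ### The limit -/

theorem lim_leftM (M : ℕ) (hn : 1 ≤ n) {y : ℝ} (hy : 0 < y) {g : Fin n → ℝ} (hg : ∀ i, 0 < g i)
    (w : ℝ) (ξ : Fin n → ℝ) :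
    Tendsto (fun d : ℝ => ∫ z : Fin n → ℝ, ch ξ z * ((Real.exp (-(π * d * q g z)) : ℝ) : ℂ) *
      KM M n y w g z) (𝓝[>] 0) (𝓝 (∫ z : Fin n → ℝ, ch ξ z * KM M n y w g z)) := by
  have hq : Measurable fun z : Fin n → ℝ => q g z := by
    unfold q
    fun_prop
  have hq0 : ∀ z : Fin n → ℝ, 0 ≤ q g z := fun z =>
    Finset.sum_nonneg fun i _ => mul_nonneg (hg i).le (sq_nonneg _)
  have hch : Measurable (ch ξ) := by
    unfold ch
    fun_prop
  refine tendsto_integral_filter_of_dominated_convergence (fun z => ‖KM M n y w g z‖) ?_ ?_ ?_ ?_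
  · refine Eventually.of_forall fun d => ?_
    refine (Measurable.mul (hch.mul ?_) (measurable_KM M hy w g)).aestronglyMeasurable
    fun_prop
  · filter_upwards [self_mem_nhdsWithin] with d hd
    refine Eventually.of_forall fun z => ?_
    have hd' : 0 < d := hd
    rw [norm_mul, norm_mul, norm_ch, one_mul, Complex.norm_real,
      Real.norm_of_nonneg (Real.exp_pos _).le]
    refine mul_le_of_le_one_left (norm_nonneg _) (Real.exp_le_one_iff.2 ?_)
    have := hq0 z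
    have : 0 ≤ π * d * q g z := by positivity
    linarith
  · exact (integrable_KM M hn hy w hg).norm
  · refine Eventually.of_forall fun z => ?_
    have h1 : Tendsto (fun d : ℝ => ((Real.exp (-(π * d * q g z)) : ℝ) : ℂ)) (𝓝[>] 0) (𝓝 1) := by
      have hc : Continuous fun d : ℝ => ((Real.exp (-(π * d * q g z)) : ℝ) : ℂ) := by fun_prop
      have := (hc.tendsto 0).mono_left (nhdsWithin_le_nhds (s := Ioi 0))
      simpa using this
    have h2 := (tendsto_const_nhds (x := ch ξ z)).mul h1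
    have h3 := h2.mul (tendsto_const_nhds (x := KM M n y w g z))
    rw [mul_one] at h3
    exact h3

theorem lim_rightM (M : ℕ) {y : ℝ} (hy : 0 < y) (w P N : ℝ) (hN : 0 ≤ N) :
    Tendsto (fun d : ℝ => ∫ s in Ioi (0 : ℝ), ((phM M n y s : ℝ) : ℂ) *
        (Complex.exp (((π * s * w : ℝ) : ℂ) * Complex.I) *
        ((P : ℂ) * ((bet d s)⁻¹ ^ (1 / 2 : ℂ)) ^ n *
          Complex.exp (-((π * N : ℝ) * (bet d s)⁻¹))))) (𝓝[>] 0)
      (𝓝 (∫ s in Ioi (0 : ℝ), ((phM M n y s : ℝ) : ℂ) *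
        (Complex.exp (((π * s * w : ℝ) : ℂ) * Complex.I) *
        ((P : ℂ) * ((bet 0 s)⁻¹ ^ (1 / 2 : ℂ)) ^ n *
          Complex.exp (-((π * N : ℝ) * (bet 0 s)⁻¹)))))) := by
  have hcint : ∀ s : ℝ, 0 < s → Continuous fun d : ℝ => (bet d s)⁻¹ := by
    intro s hs
    refine Continuous.inv₀ ?_ fun d => bet_ne hs
    unfold bet
    fun_prop
  have hslit : ∀ d s : ℝ, 0 < s → (bet d s)⁻¹ ∈ Complex.slitPlane := by
    intro d s hs
    refine Or.inr ?_
    rw [Complex.inv_im, bet_im]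
    have : 0 < Complex.normSq (bet d s) := Complex.normSq_pos.2 (bet_ne hs)
    exact div_ne_zero (by linarith) this.ne'
  refine tendsto_integral_filter_of_dominated_convergence
    (fun s => |P| * (s ^ (((M : ℝ) + 1 / 2) - 1) * Real.exp (-((2 * π * y) * s)))) ?_ ?_ ?_ ?_
  · refine Eventually.of_forall fun d => ?_
    refine Measurable.aestronglyMeasurable ?_
    unfold phM bet
    fun_prop
  · filter_upwards [self_mem_nhdsWithin] with d hd
    have hd' : 0 < d := hd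
    filter_upwards [ae_restrict_mem measurableSet_Ioi] with s hs
    have hs' : 0 < s := hs
    have e1 : ‖(bet d s)⁻¹ ^ (1 / 2 : ℂ)‖ ≤ s ^ (-(1 / 2) : ℝ) := by
      rw [show (1 / 2 : ℂ) = ((1 / 2 : ℝ) : ℂ) by push_cast; rfl, Complex.norm_cpow_real,
        Real.rpow_neg hs'.le, ← Real.inv_rpow hs'.le]
      exact Real.rpow_le_rpow (norm_nonneg _) (norm_bet_inv_le hs') (by norm_num)
    have e2 : ‖Complex.exp (-((π * N : ℝ) * (bet d s)⁻¹))‖ ≤ 1 := by
      rw [Complex.norm_exp, Complex.neg_re, Complex.re_ofReal_mul, Real.exp_le_one_iff]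
      have := re_bet_inv_nonneg (d := d) (s := s) hd'.le
      have : 0 ≤ π * N * ((bet d s)⁻¹).re := by positivity
      linarith
    have e3 : ‖((bet d s)⁻¹ ^ (1 / 2 : ℂ)) ^ n‖ ≤ (s ^ (-(1 / 2) : ℝ)) ^ n := by
      rw [norm_pow]
      exact pow_le_pow_left₀ (norm_nonneg _) e1 n
    have e4 : phM M n y s * (s ^ (-(1 / 2) : ℝ)) ^ n =
        s ^ (((M : ℝ) + 1 / 2) - 1) * Real.exp (-((2 * π * y) * s)) := by
      unfold phM
      rw [← Real.rpow_natCast, ← Real.rpow_mul hs'.le, mul_right_comm, ← Real.rpow_add hs']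
      congr 2
      · ring
      · ring
    rw [norm_mul, norm_mul, norm_mul, norm_mul, Complex.norm_real, Complex.norm_real,
      Real.norm_of_nonneg (phM_nonneg M hs'), Complex.norm_exp_ofReal_mul_I, one_mul,
      Real.norm_eq_abs]
    calc phM M n y s * (|P| * ‖((bet d s)⁻¹ ^ (1 / 2 : ℂ)) ^ n‖ *
          ‖Complex.exp (-((π * N : ℝ) * (bet d s)⁻¹))‖) ≤
          phM M n y s * (|P| * (s ^ (-(1 / 2) : ℝ)) ^ n * 1) := by
          refine mul_le_mul_of_nonneg_left ?_ (phM_nonneg M hs')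
          refine mul_le_mul (mul_le_mul_of_nonneg_left e3 (abs_nonneg _)) e2 (norm_nonneg _) ?_
          have := Real.rpow_nonneg hs'.le (-(1 / 2))
          positivity
      _ = |P| * (phM M n y s * (s ^ (-(1 / 2) : ℝ)) ^ n) := by ring
      _ = _ := by rw [e4]
  · exact (int_pow_exp (a := (M : ℝ) + 1 / 2) (ε := 2 * π * y) (by positivity)
      (by positivity)).const_mul _
  · filter_upwards [ae_restrict_mem measurableSet_Ioi] with s hs
    have hs' : 0 < s := hs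
    have h1 := ((hcint s hs').tendsto 0).mono_left (nhdsWithin_le_nhds (s := Ioi 0))
    have h2 : Tendsto (fun d : ℝ => (bet d s)⁻¹ ^ (1 / 2 : ℂ)) (𝓝[>] 0)
        (𝓝 ((bet 0 s)⁻¹ ^ (1 / 2 : ℂ))) :=
      (continuousAt_cpow_const (hslit 0 s hs')).tendsto.comp h1
    have h3 := (h2.pow n).const_mul (P : ℂ)
    have h4 := (h1.const_mul ((π * N : ℝ) : ℂ)).neg.cexp
    exact ((h3.mul h4).const_mul _).const_mul _

theorem s_kh (n : ℕ) : S_kh n := by
  intro hn M g hgb y t hy ht ξ hξ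
  have hg : ∀ i, 0 < g i := fun i => lt_of_lt_of_le one_pos (hgb i).1
  set w : ℝ := t ^ 2 - y ^ 2 / t ^ 2 with hw
  set P : ℝ := (∏ i, g i) ^ (-(1 / 2) : ℝ) with hP
  set N : ℝ := ∑ i, ξ i ^ 2 / g i with hN
  have hN0 : 0 ≤ N := Finset.sum_nonneg fun i _ => div_nonneg (sq_nonneg _) (hg i).le
  have hNpos : 0 < N := by
    obtain ⟨i, hi⟩ : ∃ i, ξ i ≠ 0 := by
      by_contra hc
      push Not at hc
      exact hξ (funext hc)
    refine Finset.sum_pos' (fun i _ => div_nonneg (sq_nonneg _) (hg i).le)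
      ⟨i, Finset.mem_univ _, ?_⟩
    have := hg i
    positivity
  have hL := lim_leftM M hn hy hg w ξ
  have hR := lim_rightM (n := n) M hy w P N hN0
  have heq : (fun d : ℝ => ∫ z : Fin n → ℝ, ch ξ z * ((Real.exp (-(π * d * q g z)) : ℝ) : ℂ) *
      KM M n y w g z) =ᶠ[𝓝[>] 0] (fun d : ℝ => ∫ s in Ioi (0 : ℝ), ((phM M n y s : ℝ) : ℂ) *
        (Complex.exp (((π * s * w : ℝ) : ℂ) * Complex.I) *
        ((P : ℂ) * ((bet d s)⁻¹ ^ (1 / 2 : ℂ)) ^ n *
          Complex.exp (-((π * N : ℝ) * (bet d s)⁻¹))))) := by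
    filter_upwards [self_mem_nhdsWithin] with d hd
    exact fubM M hd hy hg w ξ
  have key := tendsto_nhds_unique (hL.congr' heq) hR
  have hee : ∀ z : Fin n → ℝ, ee (-∑ i, z i * ξ i) = ch ξ z := by
    intro z
    unfold Pool.Agent.T9h44.LG.ee ch
    congr 3
    ring
  simp only [hee]
  rw [key]
  have hτ2 : tau y t ^ 2 = (w : ℂ) + ((2 * y : ℝ) : ℂ) * Complex.I := by
    have ht0 : (t : ℂ) ≠ 0 := Complex.ofReal_ne_zero.2 ht.ne'
    unfold tau
    rw [hw]
    push_cast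
    have hI := Complex.I_sq
    field_simp
    ring_nf
    rw [hI]
    ring
  have hcs := JM_eq (r := Nm g ξ) (Real.sqrt_pos.2 hNpos) M (tau y t)
    (by unfold tau; simpa using ht)
    (by unfold tau; simp; positivity)
  unfold JM VM at hcs
  have hNm : ((Nm g ξ : ℝ) : ℂ) ^ 2 = (N : ℂ) := by
    unfold Nm
    rw [← Complex.ofReal_pow, Real.sq_sqrt hN0]
  have hpt : ∀ s ∈ Ioi (0 : ℝ), ((phM M n y s : ℝ) : ℂ) *
        (Complex.exp (((π * s * w : ℝ) : ℂ) * Complex.I) *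
        ((P : ℂ) * ((bet 0 s)⁻¹ ^ (1 / 2 : ℂ)) ^ n *
          Complex.exp (-((π * N : ℝ) * (bet 0 s)⁻¹)))) =
      ((P : ℂ) * Complex.exp (-(Complex.I * (π * n / 4 : ℝ)))) *
        ((((s ^ ((M : ℝ) + 1 / 2 - 1) : ℝ)) : ℂ) *
        Complex.exp (Complex.I * Real.pi * s * tau y t ^ 2) *
        Complex.exp (Complex.I * Real.pi * (Nm g ξ : ℝ) ^ 2 / s)) := by
    intro s hs
    have hs' : 0 < s := hs
    have hs0 : (s : ℂ) ≠ 0 := Complex.ofReal_ne_zero.2 hs'.ne'
    rw [bet_zero_cpow hs', mul_pow, ← Complex.exp_nat_mul, hτ2, hNm, ← Complex.ofReal_pow]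
    have e4 : s ^ (((n : ℝ) - 1) / 2 + M) * (s ^ (-(1 / 2) : ℝ)) ^ n =
        s ^ ((M : ℝ) + 1 / 2 - 1) := by
      rw [← Real.rpow_natCast, ← Real.rpow_mul hs'.le, ← Real.rpow_add hs']
      congr 1
      ring
    have e5 : -(((π * N : ℝ) : ℂ) * (bet 0 s)⁻¹) = Complex.I * π * (N : ℂ) / s := by
      unfold bet
      rw [Complex.ofReal_zero, zero_add, mul_inv, Complex.inv_I]
      push_cast
      field_simp
    have e4C : ((s ^ (((n : ℝ) - 1) / 2 + M) : ℝ) : ℂ) * ((s ^ (-(1 / 2) : ℝ) : ℝ) : ℂ) ^ n =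
        ((s ^ ((M : ℝ) + 1 / 2 - 1) : ℝ) : ℂ) := by
      rw [← Complex.ofReal_pow, ← Complex.ofReal_mul, e4]
    rw [e5]
    unfold phM
    push_cast
    rw [show Complex.I * (π : ℂ) * s * ((w : ℂ) + 2 * y * Complex.I) =
      (π * s * w) * Complex.I + -(2 * π * s * y) by
        linear_combination (2 * π * s * y : ℂ) * Complex.I_sq, Complex.exp_add]
    rw [show (n : ℂ) * -(Complex.I * (π / 4)) = -(Complex.I * (π * n / 4)) by ring]
    generalize ((s ^ (((n : ℝ) - 1) / 2 + M) : ℝ) : ℂ) = a at e4C ⊢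
    generalize ((s ^ (-(1 / 2) : ℝ) : ℝ) : ℂ) = b at e4C ⊢
    generalize ((s ^ ((M : ℝ) + 1 / 2 - 1) : ℝ) : ℂ) = a' at e4C ⊢
    generalize Complex.exp (-(2 * ↑π * ↑s * ↑y)) = c1
    generalize Complex.exp (↑π * ↑s * ↑w * Complex.I) = c2
    generalize Complex.exp (-(Complex.I * (↑π * ↑n / 4))) = c3
    generalize Complex.exp (Complex.I * ↑π * ↑N / ↑s) = c4
    linear_combination (c1 * c2 * P * c3 * c4) * e4C
  rw [setIntegral_congr_fun measurableSet_Ioi hpt, integral_const_mul, hcs]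
  have e6 : Complex.exp (-(Complex.I * (π * n / 4 : ℝ))) * Complex.exp (Complex.I * Real.pi / 4) =
      Complex.exp (-(Complex.I * (π * ((n : ℝ) - 1) / 4 : ℝ))) := by
    rw [← Complex.exp_add]
    congr 1
    push_cast
    ring
  rw [← e6]
  ring

end Pool.Agent.T9h69.LG.Kh
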