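import Pool.Agent.T9h44.LG.Spec3
import Pool.Agent.T9h41.LG.R2

/-!
Piece (LK) for helper44 (MP_ee74d2_an): the projected regularised wave is the convolution with
the kernel.

Author: helper69.
-/

set_option autoImplicit false

namespace Pool.Agent.T9h69.LG.Lk

open MeasureTheory Real Pool.Agent.N303.LS Pool.Agent.T9h44.LS4
open Pool.Agent.T9h44.LG (KM Pb ee S_kh S_lk shl Psi ExV)
open Pool.Agent.T9h41.LG (Fh GS Psi_eq conv_ExV niceV_GS of_shl integrable_KM)
open Filter Topology Set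
open scoped ENNReal SchwartzMap RealInnerProductSpace FourierTransform

variable {n : ℕ}

theorem mpE : MeasurePreserving (MeasurableEquiv.toLp 2 (Fin n → ℝ)).symm :=
  EuclideanSpace.volume_preserving_symm_measurableEquiv_toLp (Fin n)

theorem intE (f : E n → ℂ) : ∫ ξ : E n, f ξ = ∫ v : Fin n → ℝ, f (WithLp.toLp 2 v) := by
  have h := (mpE (n := n)).integral_comp (MeasurableEquiv.measurableEmbedding _)
    (fun v : Fin n → ℝ => f (WithLp.toLp 2 v))
  exact h

theorem inner_toLp (x : E n) (v : Fin n → ℝ) :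
    ⟪x, (WithLp.toLp 2 v : E n)⟫ = ∑ i, x i * v i := by
  rw [PiLp.inner_apply]
  refine Finset.sum_congr rfl fun i _ => ?_
  simp [mul_comm]

theorem inv_eq (S : E n → ℂ) (x : E n) :
    inv S x = ExV (fun v => S (WithLp.toLp 2 v)) x.ofLp := by
  unfold inv Pool.Agent.T9h44.LG.ExV Pool.Agent.T9h44.LG.ee
  rw [intE]
  refine integral_congr_ae (Eventually.of_forall fun v => ?_)
  beta_reduce
  rw [inner_toLp]

theorem four_eq (h : 𝓢(E n, ℂ)) (v : Fin n → ℝ) :
    𝓕 (h : E n → ℂ) (WithLp.toLp 2 v) = Fh (fun u => h (WithLp.toLp 2 u)) v := by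
  rw [Real.fourier_eq]
  unfold Pool.Agent.T9h41.LG.Fh Pool.Agent.T9h44.LG.ee
  rw [intE]
  refine integral_congr_ae (Eventually.of_forall fun u => ?_)
  beta_reduce
  rw [Circle.smul_def, smul_eq_mul, Real.fourierChar_apply, inner_toLp]

theorem integrable_F (h : 𝓢(E n, ℂ)) : Integrable fun u : Fin n → ℝ => h (WithLp.toLp 2 u) := by
  have h1 : Integrable (h : E n → ℂ) := h.integrable
  have h2 := (mpE (n := n)).integrable_comp_emb (MeasurableEquiv.measurableEmbedding _)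
    (g := fun u : Fin n → ℝ => h (WithLp.toLp 2 u))
  exact h2.1 h1

theorem s_lk (n : ℕ) : S_kh n → S_lk n := by
  intro hkh hn M g hg R t hR ht h x
  have hR0 : 0 < R := by linarith
  have hy : 0 < R⁻¹ := by positivity
  have ht0 : 0 < t := by linarith [ht.1]
  have hg0 : ∀ i, 0 < g i := fun i => lt_of_lt_of_le one_pos (hg i).1
  set F : (Fin n → ℝ) → ℂ := fun u => h (WithLp.toLp 2 u) with hF
  have hFi : Integrable F := integrable_F h
  set K : (Fin n → ℝ) → ℂ := KM M n R⁻¹ (t ^ 2 - R⁻¹ ^ 2 / t ^ 2) g with hKdef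
  have hK : Integrable K := integrable_KM hn M hy _ hg0
  have hGi := Pool.Agent.T9h41.LG.NiceV.integrable (niceV_GS hR0 hFi)
  have hP : 0 < ∏ i, g i := Finset.prod_pos fun i _ => hg0 i
  rw [inv_eq]
  have h1 : ∫ u : Fin n → ℝ, K (x.ofLp - u) * Psi R F u =
      ExV (fun ξ => Fh K ξ * GS R F ξ) x.ofLp := by
    rw [Psi_eq, conv_ExV hK hGi]
  rw [h1]
  unfold Pool.Agent.T9h44.LG.ExV
  rw [← integral_const_mul]
  refine integral_congr_ae (Eventually.of_forall fun v => ?_)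
  beta_reduce
  by_cases h0 : shl (R⁻¹ • v) = 0
  · have h2 : GS R F v = 0 := by
      unfold Pool.Agent.T9h41.LG.GS
      rw [h0]; simp
    have h3 : shl (R⁻¹ • (WithLp.toLp 2 v : E n).ofLp) = 0 := h0
    rw [h2, h3]
    simp
  · have hv : v ≠ 0 := by
      rintro rfl
      have h2 := (of_shl h0).1
      simp at h2
      linarith
    have h3 := hkh hn M g hg R⁻¹ t hy ht0 v hv
    have h4 : Fh K v = _ := h3
    rw [h4, four_eq]
    unfold Pool.Agent.T9h41.LG.GS
    have e2 : ((((∏ i, g i) ^ (1 / 2 : ℝ) : ℝ) : ℂ)) *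
        ((((∏ i, g i) ^ (-(1 / 2) : ℝ) : ℝ) : ℂ)) = 1 := by
      rw [← Complex.ofReal_mul, ← Real.rpow_add hP, add_neg_cancel, Real.rpow_zero,
        Complex.ofReal_one]
    have e3 : Complex.exp (Complex.I * (π * ((n : ℝ) - 1) / 4 : ℝ)) *
        Complex.exp (-(Complex.I * (π * ((n : ℝ) - 1) / 4 : ℝ))) = 1 := by
      rw [← Complex.exp_add, add_neg_cancel, Complex.exp_zero]
    have e5 : Ng g (WithLp.toLp 2 v : E n) = Nm g v := rfl
    rw [e5]
    change _ * (_ * _ * _ * _ * ((shl (R⁻¹ • v) : ℝ) : ℂ) * Fh F v) = _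
    generalize ((shl (R⁻¹ • v) : ℝ) : ℂ) = sh
    generalize Fh F v = FF
    generalize Complex.exp (Complex.I * (π * ((n : ℝ) - 1) / 4 : ℝ)) = Y at e3 ⊢
    generalize Complex.exp (-(Complex.I * (π * ((n : ℝ) - 1) / 4 : ℝ))) = Y' at e3 ⊢
    generalize ((((∏ i, g i) ^ (1 / 2 : ℝ) : ℝ) : ℂ)) = a at e2 ⊢
    generalize ((((∏ i, g i) ^ (-(1 / 2) : ℝ) : ℝ) : ℂ)) = a' at e2 ⊢
    generalize (tau R⁻¹ t)⁻¹ ^ (M + 1) = T
    generalize ((Nm g v : ℝ) : ℂ) ^ M = NN
    generalize Complex.exp (2 * π * Complex.I * (Nm g v : ℝ) * tau R⁻¹ t) = X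
    generalize (Pb M).eval (1 / (2 * π * Complex.I * (Nm g v : ℝ) * tau R⁻¹ t)) = Q
    generalize ee (∑ i, x.ofLp i * v i) = e0
    have : a * Y * (e0 * (a' * Y' * T * NN * X * Q * (sh * FF))) =
        (a * a') * (Y * Y') * (e0 * (T * NN * X * Q * sh * FF)) := by ring
    rw [this, e2, e3, one_mul, one_mul]

end Pool.Agent.T9h69.LG.Lk
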