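import Pool.Agent.T9h44.LG.Spec
import Pool.Agent.T9h31.LG.Inv
import Pool.Agent.T9h69.LG.S4

/-!
Piece (LC) for helper44 (MP_ee74d2_an): the functions are locally constant at the scale `1`.

Author: helper69.
-/

set_option autoImplicit false

namespace Pool.Agent.T9h69.LG

open MeasureTheory Real Pool.Agent.T9h44.LG Pool.Agent.T9h31.LG
open scoped ENNReal ComplexConjugate

/-- the bump in `ξ`: `1` on `[-16, 16]`, `0` off `[-17, 17]` -/
noncomputable def bx (x : ℝ) : ℝ := Real.smoothTransition (17 - x) * Real.smoothTransition (17 + x)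

theorem contDiff_bx : ContDiff ℝ (⊤ : ℕ∞) bx := by
  unfold bx
  exact (Real.smoothTransition.contDiff.comp (by fun_prop)).mul
    (Real.smoothTransition.contDiff.comp (by fun_prop))

theorem bx_one {x : ℝ} (h : |x| ≤ 16) : bx x = 1 := by
  obtain ⟨h1, h2⟩ := abs_le.mp h
  unfold bx
  rw [Real.smoothTransition.one_of_one_le (by linarith),
    Real.smoothTransition.one_of_one_le (by linarith), one_mul]

theorem bx_supp {x : ℝ} (h : bx x ≠ 0) : |x| < 17 := by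
  unfold bx at h
  rw [abs_lt]
  constructor
  · by_contra hc
    push Not at hc
    apply h
    rw [Real.smoothTransition.zero_of_nonpos (x := 17 + x) (by linarith), mul_zero]
  · by_contra hc
    push Not at hc
    apply h
    rw [Real.smoothTransition.zero_of_nonpos (x := 17 - x) (by linarith), zero_mul]

/-- the multiplier -/
noncomputable def ml (ζ : ℝ × ℝ) : ℂ := ((bw ζ.1 * bx ζ.2 : ℝ) : ℂ)

theorem test_ml : Test ml := by
  constructor
  · unfold ml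
    refine Complex.ofRealCLM.contDiff.comp ?_
    exact (contDiff_bw.comp contDiff_fst).mul (contDiff_bx.comp contDiff_snd)
  · refine HasCompactSupport.intro (K := Metric.closedBall 0 20) (isCompact_closedBall _ _) ?_
    intro ζ hζ
    by_contra hc
    apply hζ
    have h1 : bw ζ.1 * bx ζ.2 ≠ 0 := by
      intro h
      apply hc
      simp only [ml, h, Complex.ofReal_zero]
    obtain ⟨h2, h3⟩ := bw_supp (left_ne_zero_of_mul h1)
    have h4 := bx_supp (right_ne_zero_of_mul h1)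
    rw [mem_closedBall_zero_iff, Prod.norm_def]
    refine max_le ?_ ?_
    · rw [Real.norm_eq_abs, abs_le]
      constructor <;> linarith
    · rw [Real.norm_eq_abs]
      linarith

/-- better decay of `Ext μ` -/
theorem Ext_decay2 {μ : ℝ × ℝ → ℂ} (h : Test μ) :
    ∃ C : ℝ, 0 < C ∧ ∀ u, ‖T9h44.LG.Ext μ u‖ ≤ C * ww u ^ 2 := by
  have hb : ∀ a b : ℕ, ∃ C : ℝ, ∀ u : ℝ × ℝ,
      |u.1| ^ a * |u.2| ^ b * ‖T9h44.LG.Ext μ u‖ ≤ C * ww u := by
    intro a b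
    obtain ⟨C, hC⟩ := Ext_decay (h.iter a b)
    refine ⟨C, fun u => ?_⟩
    have h1 := hC u
    rw [Ext_iter h] at h1
    refine le_trans ?_ h1
    rw [norm_mul, norm_mul, norm_pow, norm_pow, norm_neg, norm_neg, norm_mul, norm_mul, norm_mul,
      norm_mul, norm_mul, norm_mul, Complex.norm_I, Complex.norm_real, Complex.norm_real,
      Complex.norm_real]
    simp only [Complex.norm_ofNat, mul_one, Real.norm_eq_abs]
    rw [abs_of_pos pi_pos, mul_pow (2 * π), mul_pow (2 * π)]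
    have hp : (1 : ℝ) ≤ 2 * π := by linarith [Real.pi_gt_three]
    have h2 : (1 : ℝ) ≤ (2 * π) ^ a := one_le_pow₀ hp
    have h3 : (1 : ℝ) ≤ (2 * π) ^ b := one_le_pow₀ hp
    refine mul_le_mul_of_nonneg_right ?_ (norm_nonneg _)
    exact mul_le_mul (le_mul_of_one_le_left (by positivity) h2)
      (le_mul_of_one_le_left (by positivity) h3) (by positivity) (by positivity)
  obtain ⟨C0, h0⟩ := hb 0 0
  obtain ⟨C1, h1⟩ := hb 2 0
  obtain ⟨C2, h2⟩ := hb 0 2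
  obtain ⟨C3, h3⟩ := hb 2 2
  refine ⟨|C0| + |C1| + |C2| + |C3| + 1, by positivity, fun u => ?_⟩
  have h4 := h0 u
  have h5 := h1 u
  have h6 := h2 u
  have h7 := h3 u
  simp only [pow_zero, one_mul, mul_one, sq_abs] at h4 h5 h6 h7
  have hw := ww_pos u
  have h8 : 0 < (1 + u.1 ^ 2) * (1 + u.2 ^ 2) := by positivity
  have h9 : ww u = ((1 + u.1 ^ 2) * (1 + u.2 ^ 2))⁻¹ := by unfold ww; rw [mul_inv]
  have h10 : ‖T9h44.LG.Ext μ u‖ * ((1 + u.1 ^ 2) * (1 + u.2 ^ 2)) ≤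
      (|C0| + |C1| + |C2| + |C3| + 1) * ww u := by
    calc ‖T9h44.LG.Ext μ u‖ * ((1 + u.1 ^ 2) * (1 + u.2 ^ 2)) =
        ‖T9h44.LG.Ext μ u‖ + u.1 ^ 2 * ‖T9h44.LG.Ext μ u‖ + u.2 ^ 2 * ‖T9h44.LG.Ext μ u‖ +
          u.1 ^ 2 * u.2 ^ 2 * ‖T9h44.LG.Ext μ u‖ := by ring
      _ ≤ C0 * ww u + C1 * ww u + C2 * ww u + C3 * ww u := by linarith
      _ ≤ |C0| * ww u + |C1| * ww u + |C2| * ww u + |C3| * ww u := by
          have e0 := mul_le_mul_of_nonneg_right (le_abs_self C0) hw.le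
          have e1 := mul_le_mul_of_nonneg_right (le_abs_self C1) hw.le
          have e2 := mul_le_mul_of_nonneg_right (le_abs_self C2) hw.le
          have e3 := mul_le_mul_of_nonneg_right (le_abs_self C3) hw.le
          linarith
      _ ≤ _ := by linarith
  have h11 : (1 + u.1 ^ 2) * (1 + u.2 ^ 2) = (ww u)⁻¹ := by rw [h9, inv_inv]
  rw [h11, ← div_eq_mul_inv, div_le_iff₀ hw] at h10
  calc _ ≤ _ := h10
    _ = _ := by ring

theorem ww_sq (u : ℝ × ℝ) : Wt 0 1 1 u = ww u ^ 2 := by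
  unfold Wt om ww
  simp only [zero_mul, add_zero, one_pow, div_one, one_mul, mul_pow, inv_pow]

theorem ww_le_one (u : ℝ × ℝ) : ww u ≤ 1 := by
  unfold ww
  have h1 : (1 + u.1 ^ 2)⁻¹ ≤ 1 := inv_le_one_of_one_le₀ (by nlinarith [sq_nonneg u.1])
  have h2 : (1 + u.2 ^ 2)⁻¹ ≤ 1 := inv_le_one_of_one_le₀ (by nlinarith [sq_nonneg u.2])
  exact mul_le_one₀ h1 (by positivity) h2

theorem measurable_ww : Measurable ww := by
  unfold ww
  fun_prop

/-- the pointwise bound -/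
theorem lc_pt : ∃ C : ℝ, 0 < C ∧ ∀ G : ℝ × ℝ → ℂ, Cls 1 G → ∀ z : ℝ × ℝ,
    ‖T9h44.LG.Ext G z‖ₑ ^ 2 ≤ ENNReal.ofReal C * Av 0 1 1 (T9h44.LG.sq G) z := by
  obtain ⟨C, hC0, hC⟩ := Ext_decay2 test_ml
  have hI : 0 ≤ ∫ y : ℝ × ℝ, ww y := integral_nonneg fun y => (ww_pos y).le
  refine ⟨C ^ 2 * ((∫ y : ℝ × ℝ, ww y) + 1), by positivity, ?_⟩
  intro G hG z
  have h1 : T9h44.LG.Ext G z =
      ∫ y' : ℝ × ℝ, T9h44.LG.Ext ml (z - y') * T9h44.LG.Ext G y' := by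
    rw [← Ext_mul test_ml hG.1 z]
    congr 1
    funext ζ
    by_cases h0 : G ζ = 0
    · rw [h0, mul_zero]
    · obtain ⟨h3, h4, h5⟩ := hG.2 ζ h0
      have h6 : ml ζ = 1 := by
        unfold ml
        rw [bw_one h3 (by linarith), bx_one (by linarith), one_mul, Complex.ofReal_one]
      rw [h6, one_mul]
  have hFm : Measurable fun y' : ℝ × ℝ => ‖T9h44.LG.Ext G y'‖ₑ :=
    (continuous_Ext hG.1).measurable.enorm
  have hwm : Measurable fun y' : ℝ × ℝ => ENNReal.ofReal (ww (z - y')) :=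
    (measurable_ww.comp (by fun_prop)).ennreal_ofReal
  have h2 : ‖T9h44.LG.Ext G z‖ₑ ≤ ENNReal.ofReal C * ∫⁻ y' : ℝ × ℝ,
      ENNReal.ofReal (ww (z - y')) * (ENNReal.ofReal (ww (z - y')) * ‖T9h44.LG.Ext G y'‖ₑ) := by
    rw [h1]
    refine (enorm_integral_le_lintegral_enorm _).trans ?_
    rw [← lintegral_const_mul' _ _ ENNReal.ofReal_ne_top]
    refine lintegral_mono fun y' => ?_
    rw [enorm_mul]
    have h3 : ‖T9h44.LG.Ext ml (z - y')‖ₑ ≤
        ENNReal.ofReal C * (ENNReal.ofReal (ww (z - y')) * ENNReal.ofReal (ww (z - y'))) := by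
      rw [← ofReal_norm, ← ENNReal.ofReal_mul (ww_pos _).le, ← ENNReal.ofReal_mul hC0.le]
      refine ENNReal.ofReal_le_ofReal ((hC _).trans (le_of_eq ?_))
      ring
    calc _ ≤ ENNReal.ofReal C * (ENNReal.ofReal (ww (z - y')) * ENNReal.ofReal (ww (z - y'))) *
          ‖T9h44.LG.Ext G y'‖ₑ := mul_le_mul' h3 le_rfl
      _ = _ := by ring
  have h3 : (∫⁻ y' : ℝ × ℝ, ENNReal.ofReal (ww (z - y')) *
      (ENNReal.ofReal (ww (z - y')) * ‖T9h44.LG.Ext G y'‖ₑ)) ^ 2 ≤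
      (∫⁻ y' : ℝ × ℝ, ENNReal.ofReal (ww (z - y')) ^ 2) *
        ∫⁻ y' : ℝ × ℝ, (ENNReal.ofReal (ww (z - y')) * ‖T9h44.LG.Ext G y'‖ₑ) ^ 2 := by
    have hh := ENNReal.lintegral_mul_le_Lp_mul_Lq (volume : Measure (ℝ × ℝ))
      (Real.HolderConjugate.two_two) hwm.aemeasurable (hwm.mul hFm).aemeasurable
    simp only [Pi.mul_apply] at hh
    calc _ ≤ ((∫⁻ y' : ℝ × ℝ, ENNReal.ofReal (ww (z - y')) ^ (2 : ℝ)) ^ (1 / (2 : ℝ)) *
          (∫⁻ y' : ℝ × ℝ, (ENNReal.ofReal (ww (z - y')) * ‖T9h44.LG.Ext G y'‖ₑ) ^ (2 : ℝ)) ^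
            (1 / (2 : ℝ))) ^ 2 := pow_le_pow_left' hh 2
      _ = _ := by
          rw [mul_pow, ← ENNReal.rpow_natCast, ← ENNReal.rpow_natCast, ← ENNReal.rpow_mul,
            ← ENNReal.rpow_mul]
          norm_num
  have h4 : ∫⁻ y' : ℝ × ℝ, ENNReal.ofReal (ww (z - y')) ^ 2 ≤
      ENNReal.ofReal ((∫ y : ℝ × ℝ, ww y) + 1) := by
    calc ∫⁻ y' : ℝ × ℝ, ENNReal.ofReal (ww (z - y')) ^ 2
        ≤ ∫⁻ y' : ℝ × ℝ, ENNReal.ofReal (ww (z - y')) := by
          refine lintegral_mono fun y' => ?_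
          rw [pow_two]
          calc _ ≤ ENNReal.ofReal (ww (z - y')) * 1 :=
                mul_le_mul' le_rfl (ENNReal.ofReal_le_one.mpr (ww_le_one _))
            _ = _ := mul_one _
      _ = ∫⁻ y : ℝ × ℝ, ENNReal.ofReal (ww y) :=
          lintegral_sub_left_eq_self (fun y => ENNReal.ofReal (ww y)) z
      _ = ENNReal.ofReal (∫ y : ℝ × ℝ, ww y) := by
          rw [ofReal_integral_eq_lintegral_ofReal integrable_ww
            (Filter.Eventually.of_forall fun y => (ww_pos y).le)]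
      _ ≤ _ := ENNReal.ofReal_le_ofReal (by linarith)
  have h5 : ∫⁻ y' : ℝ × ℝ, (ENNReal.ofReal (ww (z - y')) * ‖T9h44.LG.Ext G y'‖ₑ) ^ 2 =
      Av 0 1 1 (T9h44.LG.sq G) z := by
    unfold Av T9h44.LG.sq
    refine lintegral_congr fun y' => ?_
    rw [mul_pow, ww_sq, ENNReal.ofReal_pow (ww_pos _).le]
  calc ‖T9h44.LG.Ext G z‖ₑ ^ 2 ≤ (ENNReal.ofReal C * ∫⁻ y' : ℝ × ℝ,
      ENNReal.ofReal (ww (z - y')) *
        (ENNReal.ofReal (ww (z - y')) * ‖T9h44.LG.Ext G y'‖ₑ)) ^ 2 := pow_le_pow_left' h2 2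
    _ = ENNReal.ofReal C ^ 2 * (∫⁻ y' : ℝ × ℝ, ENNReal.ofReal (ww (z - y')) *
        (ENNReal.ofReal (ww (z - y')) * ‖T9h44.LG.Ext G y'‖ₑ)) ^ 2 := mul_pow _ _ _
    _ ≤ ENNReal.ofReal C ^ 2 * (ENNReal.ofReal ((∫ y : ℝ × ℝ, ww y) + 1) *
          Av 0 1 1 (T9h44.LG.sq G) z) := by
        refine mul_le_mul' le_rfl (h3.trans ?_)
        rw [h5]
        exact mul_le_mul' h4 le_rfl
    _ = _ := by
        rw [ENNReal.ofReal_mul (by positivity), ENNReal.ofReal_pow hC0.le]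
        ring

theorem s_lc : S_lc := by
  obtain ⟨C, hC0, hC⟩ := lc_pt
  refine ⟨C ^ 2, by positivity, fun G hG => ?_⟩
  rw [← lintegral_const_mul' _ _ ENNReal.ofReal_ne_top]
  refine lintegral_mono fun z => ?_
  calc ‖T9h44.LG.Ext G z‖ₑ ^ 4 = (‖T9h44.LG.Ext G z‖ₑ ^ 2) ^ 2 := by ring
    _ ≤ (ENNReal.ofReal C * Av 0 1 1 (T9h44.LG.sq G) z) ^ 2 := pow_le_pow_left' (hC G hG z) 2
    _ = _ := by rw [mul_pow, ENNReal.ofReal_pow hC0.le]

end Pool.Agent.T9h69.LG
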