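import Pool.Agent.T9h44.LG.Spec
import Pool.Agent.T9h31.LG.Bs

/-!
The kernel of the propagator at the time `γ`, `|γ| ≥ 1`: the `L¹` norm is at most `C |γ|^(1/2)`
(for helper44, MP_ee74d2_an, piece FX).

Author: helper69.
-/

set_option autoImplicit false

namespace Pool.Agent.T9h69.LG

open MeasureTheory Real Pool.Agent.T9h44.LG Pool.Agent.T9h31.LG
open scoped ENNReal ComplexConjugate ContDiff

/-- smooth with compact support -/
def SF (g : ℝ → ℂ) : Prop := ContDiff ℝ (⊤ : ℕ∞) g ∧ HasCompactSupport g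

/-- smooth with compact support, `0` for `w < 1/2` -/
def SW (f : ℝ → ℂ) : Prop := SF f ∧ ∀ w < 1 / 2, f w = 0

theorem SF.deriv {g : ℝ → ℂ} (h : SF g) : SF (_root_.deriv g) :=
  ⟨((contDiff_infty_iff_deriv).1 h.1).2, h.2.deriv⟩

theorem SW.deriv {f : ℝ → ℂ} (h : SW f) : SW (_root_.deriv f) := by
  refine ⟨h.1.deriv, fun w hw => ?_⟩
  have h1 : f =ᶠ[nhds w] fun _ => 0 := by
    filter_upwards [Iio_mem_nhds hw] with w' hw'
    exact h.2 w' hw'
  rw [h1.deriv_eq]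
  simp

/-- multiplication with the variable -/
noncomputable def xg (g : ℝ → ℂ) (x : ℝ) : ℂ := (x : ℂ) * g x

theorem SF.xg {g : ℝ → ℂ} (h : SF g) : SF (xg g) := by
  refine ⟨?_, ?_⟩
  · unfold T9h69.LG.xg
    exact Complex.ofRealCLM.contDiff.mul h.1
  · unfold T9h69.LG.xg
    exact h.2.mul_left

/-- division by the variable -/
noncomputable def dv (f : ℝ → ℂ) (w : ℝ) : ℂ := f w / (w : ℂ)

theorem SW.dv {f : ℝ → ℂ} (h : SW f) : SW (dv f) := by
  refine ⟨⟨?_, ?_⟩, fun w hw => ?_⟩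
  · rw [contDiff_iff_contDiffAt]
    intro w
    by_cases hw : w < 1 / 2
    · have h1 : T9h69.LG.dv f =ᶠ[nhds w] fun _ => 0 := by
        filter_upwards [Iio_mem_nhds hw] with w' hw'
        unfold T9h69.LG.dv
        rw [h.2 w' hw', zero_div]
      exact contDiffAt_const.congr_of_eventuallyEq h1
    · push Not at hw
      have h0 : (w : ℂ) ≠ 0 := by
        have : w ≠ 0 := by linarith
        exact_mod_cast this
      have h1 : T9h69.LG.dv f = fun w : ℝ => f w * ((w : ℂ))⁻¹ := by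
        funext w
        unfold T9h69.LG.dv
        rw [div_eq_mul_inv]
      rw [h1]
      exact h.1.1.contDiffAt.mul ((Complex.ofRealCLM.contDiff.contDiffAt (x := w)).inv h0)
  · refine HasCompactSupport.of_support_subset_isCompact h.1.2 ?_
    intro w hw
    apply subset_tsupport
    intro h0
    apply hw
    unfold T9h69.LG.dv
    rw [h0, zero_div]
  · unfold T9h69.LG.dv
    rw [h.2 w hw, zero_div]

/-- the functions on the Fourier side -/
noncomputable def XX (γ : ℝ) (f g : ℝ → ℂ) (ζ : ℝ × ℝ) : ℂ := ee (γ * qq ζ) * (f ζ.1 * g ζ.2)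

theorem contDiff_ee : ContDiff ℝ (⊤ : ℕ∞) ee := by
  unfold T9h44.LG.ee
  refine Complex.contDiff_exp.comp ?_
  have h : ContDiff ℝ (⊤ : ℕ∞) fun a : ℝ => 2 * π * a := by fun_prop
  exact (Complex.ofRealCLM.contDiff.comp h).mul contDiff_const

theorem test_XX (γ : ℝ) {f g : ℝ → ℂ} (hf : SW f) (hg : SF g) : Test (XX γ f g) := by
  constructor
  · rw [contDiff_iff_contDiffAt]
    intro ζ
    by_cases hw : ζ.1 < 1 / 2
    · have h1 : XX γ f g =ᶠ[nhds ζ] fun _ => 0 := by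
        have h2 : ∀ᶠ ζ' : ℝ × ℝ in nhds ζ, ζ'.1 < 1 / 2 :=
          (continuous_fst.tendsto ζ).eventually (Iio_mem_nhds hw)
        filter_upwards [h2] with ζ' h
        unfold XX
        rw [hf.2 _ h, zero_mul, mul_zero]
      exact contDiffAt_const.congr_of_eventuallyEq h1
    · push Not at hw
      have h0 : ζ.1 ≠ 0 := by linarith
      unfold XX qq
      refine ContDiffAt.mul ?_ (ContDiffAt.mul ?_ ?_)
      · refine contDiff_ee.contDiffAt.comp ζ ?_
        exact contDiffAt_const.mul ((contDiffAt_snd.pow 2).div contDiffAt_fst h0)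
      · exact hf.1.1.contDiffAt.comp ζ contDiffAt_fst
      · exact hg.1.contDiffAt.comp ζ contDiffAt_snd
  · refine HasCompactSupport.of_support_subset_isCompact (hf.1.2.isCompact.prod hg.2.isCompact) ?_
    intro ζ hζ
    constructor
    · apply subset_tsupport
      intro h0
      apply hζ
      unfold XX
      rw [h0, zero_mul, mul_zero]
    · apply subset_tsupport
      intro h0
      apply hζ
      unfold XX
      rw [h0, mul_zero, mul_zero]

theorem dx_eq {μ : ℝ × ℝ → ℂ} (h : Test μ) (ζ : ℝ × ℝ) {v : ℂ}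
    (hv : HasDerivAt (fun ξ : ℝ => μ (ζ.1, ξ)) v ζ.2) : dx μ ζ = v := by
  have h1 := iter_dx h 1 ζ.1
  rw [iteratedDeriv_one] at h1
  have h2 := congrFun h1 ζ.2
  rw [hv.deriv] at h2
  exact h2.symm

theorem dw_eq {μ : ℝ × ℝ → ℂ} (h : Test μ) (ζ : ℝ × ℝ) {v : ℂ}
    (hv : HasDerivAt (fun w : ℝ => μ (w, ζ.2)) v ζ.1) : dw μ ζ = v := by
  have h1 := iter_dw h 1 ζ.2
  rw [iteratedDeriv_one] at h1
  have h2 := congrFun h1 ζ.1
  rw [hv.deriv] at h2
  exact h2.symm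

theorem ee_deriv {φ : ℝ → ℝ} {φ' x : ℝ} (h : HasDerivAt φ φ' x) :
    HasDerivAt (fun x => ee (φ x)) (2 * π * Complex.I * φ' * ee (φ x)) x := by
  unfold T9h44.LG.ee
  have h1 : HasDerivAt (fun x : ℝ => ((2 * π * φ x : ℝ) : ℂ) * Complex.I)
      (((2 * π * φ' : ℝ) : ℂ) * Complex.I) x :=
    ((h.const_mul (2 * π)).ofReal_comp).mul_const _
  refine h1.cexp.congr_deriv ?_
  push_cast
  ring

/-- `∂_ξ` -/
theorem dx_XX (γ : ℝ) {f g : ℝ → ℂ} (hf : SW f) (hg : SF g) (ζ : ℝ × ℝ) :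
    dx (XX γ f g) ζ = XX γ f (deriv g) ζ + 4 * π * Complex.I * γ * XX γ (dv f) (xg g) ζ := by
  refine dx_eq (test_XX γ hf hg) ζ ?_
  have h1 : HasDerivAt (fun ξ : ℝ => γ * (ξ ^ 2 / ζ.1)) (γ * (2 * ζ.2 / ζ.1)) ζ.2 := by
    have := ((hasDerivAt_pow 2 ζ.2).div_const ζ.1).const_mul γ
    refine this.congr_deriv ?_
    norm_num
  have h2 := ee_deriv h1
  have h3 : HasDerivAt g (deriv g ζ.2) ζ.2 :=
    ((hg.1.differentiable (by simp)) ζ.2).hasDerivAt
  have h4 := h2.mul (h3.const_mul (f ζ.1))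
  refine h4.congr_deriv ?_
  unfold XX qq dv T9h69.LG.xg
  push_cast
  ring

/-- `∂_w` -/
theorem dw_XX (γ : ℝ) {f g : ℝ → ℂ} (hf : SW f) (hg : SF g) (ζ : ℝ × ℝ) :
    dw (XX γ f g) ζ = XX γ (deriv f) g ζ -
      2 * π * Complex.I * γ * XX γ (dv (dv f)) (xg (xg g)) ζ := by
  refine dw_eq (test_XX γ hf hg) ζ ?_
  by_cases hw : ζ.1 < 1 / 2
  · have e1 : XX γ (deriv f) g ζ = 0 := by
      unfold XX
      rw [hf.deriv.2 _ hw, zero_mul, mul_zero]
    have e2 : XX γ (dv (dv f)) (xg (xg g)) ζ = 0 := by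
      unfold XX
      rw [hf.dv.dv.2 _ hw, zero_mul, mul_zero]
    rw [e1, e2, mul_zero, sub_zero]
    have h1 : (fun w : ℝ => XX γ f g (w, ζ.2)) =ᶠ[nhds ζ.1] fun _ => 0 := by
      filter_upwards [Iio_mem_nhds hw] with w hw'
      unfold XX
      rw [hf.2 w hw', zero_mul, mul_zero]
    exact (hasDerivAt_const ζ.1 (0 : ℂ)).congr_of_eventuallyEq h1
  · push Not at hw
    have h0 : ζ.1 ≠ 0 := by linarith
    have h0' : (ζ.1 : ℂ) ≠ 0 := by exact_mod_cast h0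
    have h1 : HasDerivAt (fun w : ℝ => γ * (ζ.2 ^ 2 / w)) (-(γ * (ζ.2 ^ 2 / ζ.1 ^ 2))) ζ.1 := by
      have := ((hasDerivAt_inv h0).const_mul (ζ.2 ^ 2)).const_mul γ
      refine this.congr_deriv ?_
      ring
    have h2 := ee_deriv h1
    have h3 : HasDerivAt f (deriv f ζ.1) ζ.1 :=
      ((hf.1.1.differentiable (by simp)) ζ.1).hasDerivAt
    have h4 := h2.mul (h3.mul_const (g ζ.2))
    refine h4.congr_deriv ?_
    unfold XX qq dv T9h69.LG.xg
    push_cast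
    field_simp
    ring

theorem Ext_add {F G : ℝ × ℝ → ℂ} (hF : Integrable F) (hG : Integrable G) (z : ℝ × ℝ) :
    T9h44.LG.Ext (fun ζ => F ζ + G ζ) z = T9h44.LG.Ext F z + T9h44.LG.Ext G z := by
  unfold T9h44.LG.Ext
  have h : ∀ {H : ℝ × ℝ → ℂ}, Integrable H →
      Integrable fun ζ : ℝ × ℝ => ee (z.1 * ζ.1 + z.2 * ζ.2) * H ζ := by
    intro H hH
    refine Integrable.bdd_mul (c := 1) hH ?_ ?_
    · exact (continuous_ee.comp (by fun_prop)).aestronglyMeasurable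
    · exact Filter.Eventually.of_forall fun p => (norm_ee _).le
  rw [← integral_add (h hF) (h hG)]
  refine integral_congr_ae (Filter.Eventually.of_forall fun ζ => ?_)
  simp only
  ring

theorem Ext_cmul (c : ℂ) (F : ℝ × ℝ → ℂ) (z : ℝ × ℝ) :
    T9h44.LG.Ext (fun ζ => c * F ζ) z = c * T9h44.LG.Ext F z := by
  unfold T9h44.LG.Ext
  rw [← integral_const_mul]
  refine integral_congr_ae (Filter.Eventually.of_forall fun ζ => ?_)
  simp only
  ring

/-- `x Ext X` -/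
theorem x_Ext (γ : ℝ) {f g : ℝ → ℂ} (hf : SW f) (hg : SF g) (z : ℝ × ℝ) :
    -(2 * π * Complex.I * z.2) * T9h44.LG.Ext (XX γ f g) z =
      T9h44.LG.Ext (XX γ f (deriv g)) z +
        4 * π * Complex.I * γ * T9h44.LG.Ext (XX γ (dv f) (xg g)) z := by
  rw [← Ext_dx (test_XX γ hf hg) z, ← Ext_cmul, ← Ext_add (test_XX γ hf hg.deriv).integrable
    ((test_XX γ hf.dv hg.xg).integrable.const_mul _)]
  congr 1
  funext ζ
  exact dx_XX γ hf hg ζ

/-- `t Ext X` -/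
theorem t_Ext (γ : ℝ) {f g : ℝ → ℂ} (hf : SW f) (hg : SF g) (z : ℝ × ℝ) :
    -(2 * π * Complex.I * z.1) * T9h44.LG.Ext (XX γ f g) z =
      T9h44.LG.Ext (XX γ (deriv f) g) z +
        (-(2 * π * Complex.I * γ)) * T9h44.LG.Ext (XX γ (dv (dv f)) (xg (xg g))) z := by
  rw [← Ext_dw (test_XX γ hf hg) z, ← Ext_cmul, ← Ext_add (test_XX γ hf.deriv hg).integrable
    ((test_XX γ hf.dv.dv hg.xg.xg).integrable.const_mul _)]
  congr 1
  funext ζ
  rw [dw_XX γ hf hg ζ]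
  ring

/-- the key identity: `(t - x²/(4γ)) Ext X` has no factor `γ` -/
theorem key_Ext {γ : ℝ} (hγ : γ ≠ 0) {f g : ℝ → ℂ} (hf : SW f) (hg : SF g) (z : ℝ × ℝ) :
    ((z.1 - z.2 ^ 2 / (4 * γ) : ℝ) : ℂ) * T9h44.LG.Ext (XX γ f g) z =
      Complex.I / (2 * π) * T9h44.LG.Ext (XX γ (deriv f) g) z +
      (1 / (16 * π ^ 2 * γ)) * T9h44.LG.Ext (XX γ f (deriv (deriv g))) z +
      Complex.I / (4 * π) * (T9h44.LG.Ext (XX γ (dv f) (xg (deriv g))) z +
        T9h44.LG.Ext (XX γ (dv f) (deriv (xg g))) z) := by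
  have h1 := t_Ext γ hf hg z
  have h2 := x_Ext γ hf hg z
  have h3 := x_Ext γ hf hg.deriv z
  have h4 := x_Ext γ hf.dv hg.xg z
  have hγ' : (γ : ℂ) ≠ 0 := by exact_mod_cast hγ
  have hπ : (π : ℂ) ≠ 0 := by exact_mod_cast Real.pi_ne_zero
  have hI := Complex.I_sq
  generalize T9h44.LG.Ext (XX γ f g) z = E at h1 h2 ⊢
  generalize T9h44.LG.Ext (XX γ (deriv f) g) z = E1 at h1 ⊢
  generalize T9h44.LG.Ext (XX γ (dv (dv f)) (xg (xg g))) z = E2 at h1 h4
  generalize T9h44.LG.Ext (XX γ f (deriv g)) z = E3 at h2 h3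
  generalize T9h44.LG.Ext (XX γ (dv f) (xg g)) z = E4 at h2 h4
  generalize T9h44.LG.Ext (XX γ f (deriv (deriv g))) z = E5 at h3 ⊢
  generalize T9h44.LG.Ext (XX γ (dv f) (xg (deriv g))) z = E6 at h3 ⊢
  generalize T9h44.LG.Ext (XX γ (dv f) (deriv (xg g))) z = E7 at h4 ⊢
  have a1 : (z.1 : ℂ) * E = Complex.I / (2 * π) * E1 + γ * E2 := by
    have e : (z.1 : ℂ) * E = Complex.I / (2 * π) * (-(2 * π * Complex.I * z.1) * E) := by
      field_simp
      linear_combination ((z.1 : ℂ) * E) * hI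
    rw [e, h1]
    field_simp
    linear_combination (-(2 * π * γ * E2)) * hI
  have a2 : (z.2 : ℂ) ^ 2 * E = -(1 / (4 * π ^ 2)) * (E5 + 4 * π * Complex.I * γ * E6 +
      4 * π * Complex.I * γ * (E7 + 4 * π * Complex.I * γ * E2)) := by
    rw [← h4, ← h3]
    have e : (z.2 : ℂ) ^ 2 * E = -(1 / (4 * π ^ 2)) * (-(2 * π * Complex.I * z.2) *
        (-(2 * π * Complex.I * z.2) * E)) := by
      field_simp
      linear_combination (4 * ((z.2 : ℂ) ^ 2 * E)) * hI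
    rw [e, h2]
    ring
  have a3 : ((z.1 - z.2 ^ 2 / (4 * γ) : ℝ) : ℂ) * E = z.1 * E - 1 / (4 * γ) * (z.2 ^ 2 * E) := by
    push_cast
    field_simp
  rw [a3, a1, a2]
  field_simp
  linear_combination (512 * π ^ 2 * γ ^ 2 * E2) * hI

end Pool.Agent.T9h69.LG
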